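import Mathlib

namespace Pool.Agent.P.MP_ef40db_lc

/-- An instance of student-project allocation with project lower quotas. -/
structure Inst where
  /-- number of students -/
  n₁ : ℕ
  /-- number of projects -/
  n₂ : ℕ
  /-- number of lecturers -/
  n₃ : ℕ
  /-- the acceptable projects of a student, best first -/
  pref : Fin n₁ → List (Fin n₂)
  pref_nodup : ∀ s, (pref s).Nodup
  /-- the lecturer offering a project -/
  lec : Fin n₂ → Fin n₃
  lec_surj : Function.Surjective lec
  /-- the list of a lecturer, best first -/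
  rank : Fin n₃ → List (Fin n₁)
  rank_nodup : ∀ l, (rank l).Nodup
  mem_rank : ∀ l s, s ∈ rank l ↔ ∃ p ∈ pref s, lec p = l
  /-- project capacities -/
  c : Fin n₂ → ℕ
  /-- project lower quotas -/
  q : Fin n₂ → ℕ
  /-- lecturer capacities -/
  d : Fin n₃ → ℕ
  c_le_d : ∀ p, c p ≤ d (lec p)
  d_le_sum : ∀ l, d l ≤ ∑ p ∈ Finset.univ.filter (fun p => lec p = l), c p

namespace Inst

variable (I : Inst) (M : Finset (Fin I.n₁ × Fin I.n₂))

/-- `M(p)` -/
def onProj (p : Fin I.n₂) : Finset (Fin I.n₁) := Finset.univ.filter (fun s => (s, p) ∈ M)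

/-- `M(l)` -/
def onLec (l : Fin I.n₃) : Finset (Fin I.n₁) :=
  Finset.univ.filter (fun s => ∃ p, I.lec p = l ∧ (s, p) ∈ M)

/-- matchings -/
def IsMatching : Prop :=
  (∀ s p, (s, p) ∈ M → p ∈ I.pref s) ∧
  (∀ s p p', (s, p) ∈ M → (s, p') ∈ M → p = p') ∧
  (∀ p, (I.onProj M p).card ≤ I.c p) ∧
  (∀ l, (I.onLec M l).card ≤ I.d l)

/-- lecturer `l` prefers `s` to the worst student in `X` -/
def PrefersToWorst (l : Fin I.n₃) (s : Fin I.n₁) (X : Finset (Fin I.n₁)) : Prop :=
  ∃ w ∈ X, (∀ x ∈ X, (I.rank l).idxOf x ≤ (I.rank l).idxOf w) ∧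
    (I.rank l).idxOf s < (I.rank l).idxOf w

/-- blocking pairs -/
def Blocks (s : Fin I.n₁) (p : Fin I.n₂) : Prop :=
  (s, p) ∉ M ∧ p ∈ I.pref s ∧
  ((∀ p', (s, p') ∉ M) ∨ ∃ p', (s, p') ∈ M ∧ (I.pref s).idxOf p < (I.pref s).idxOf p') ∧
  (((I.onProj M p).card < I.c p ∧ (I.onLec M (I.lec p)).card < I.d (I.lec p)) ∨
   ((I.onProj M p).card < I.c p ∧ (I.onLec M (I.lec p)).card = I.d (I.lec p) ∧
     (s ∈ I.onLec M (I.lec p) ∨ I.PrefersToWorst (I.lec p) s (I.onLec M (I.lec p)))) ∨
   ((I.onProj M p).card = I.c p ∧ I.PrefersToWorst (I.lec p) s (I.onProj M p)))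

/-- stable matchings that respect the lower quotas -/
def IsSolution : Prop :=
  I.IsMatching M ∧ (∀ s p, ¬ I.Blocks M s p) ∧ ∀ p, I.q p ≤ (I.onProj M p).card

/-- the instance as lines of numbers -/
def lines : List (List ℕ) :=
  [I.n₁, I.n₂, I.n₃] ::
    (List.ofFn (fun s => (I.pref s).map Fin.val) ++
     List.ofFn (fun p => [(I.lec p).val, I.c p, I.q p]) ++
     List.ofFn (fun l => I.d l :: (I.rank l).map Fin.val))

/-- the input word: numbers in binary, with end-of-number and end-of-line marks -/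
def encode : List Bool :=
  I.lines.flatMap (fun line =>
    line.flatMap (fun n => n.bits.flatMap (fun b => [true, b]) ++ [false, false]) ++ [false, true])

/-- the incidence matrix of `M`, row by row -/
def table : List Bool :=
  (List.finRange I.n₁).flatMap (fun s => (List.finRange I.n₂).map (fun p => decide ((s, p) ∈ M)))

end Inst

end Pool.Agent.P.MP_ef40db_lc
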