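import Pool.Agent.P.MP_ef40db_lc.Defs

/-! The threshold algorithm and its correctness. -/

namespace Pool.Agent.P.MP_ef40db_lc

open Finset

theorem find?_mono {α : Type} {P Q : α → Bool} {l : List α} {x : α} (h : l.find? P = some x)
    (hQP : ∀ y, Q y = true → P y = true) (hx : Q x = true) : l.find? Q = some x := by
  induction l with
  | nil => simp at h
  | cons y l ih =>
    rw [List.find?_cons] at h ⊢
    cases hP : P y
    · rw [hP] at h
      have : Q y = false := by
        cases hQ : Q y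
        · rfl
        · rw [hQP y hQ] at hP; cases hP
      rw [this]; exact ih h
    · rw [hP] at h
      have : y = x := by simpa using h
      subst this
      rw [hx]

theorem find?_idx_le {α : Type} [DecidableEq α] {P : α → Bool} {l : List α} {x y : α}
    (h : l.find? P = some x) (hy : y ∈ l) (hP : P y = true) : l.idxOf x ≤ l.idxOf y := by
  induction l with
  | nil => simp at h
  | cons z l ih =>
    rw [List.find?_cons] at h
    cases hz : P z
    · rw [hz] at h
      have hx : P x = true := List.find?_some h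
      have h1 : z ≠ x := by rintro rfl; rw [hx] at hz; cases hz
      have h2 : z ≠ y := by rintro rfl; rw [hP] at hz; cases hz
      have hy' : y ∈ l := by
        rcases List.mem_cons.1 hy with rfl | h
        · exact absurd rfl h2
        · exact h
      rw [List.idxOf_cons_ne _ h1, List.idxOf_cons_ne _ h2]
      exact Nat.succ_le_succ (ih h hy')
    · rw [hz] at h
      have : z = x := by simpa using h
      subst this
      simp

namespace Inst

variable (I : Inst)

/-- position of `s` in the list of lecturer `l` -/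
def rk (l : Fin I.n₃) (s : Fin I.n₁) : ℕ := (I.rank l).idxOf s

/-- the best project of `s` that is still available under thresholds `t` -/
def top (t : Fin I.n₂ → ℕ) (s : Fin I.n₁) : Option (Fin I.n₂) :=
  (I.pref s).find? (fun p => decide (I.rk (I.lec p) s < t p))

/-- the assignment defined by thresholds -/
def asg (t : Fin I.n₂ → ℕ) : Finset (Fin I.n₁ × Fin I.n₂) :=
  univ.filter (fun x => I.top t x.1 = some x.2)

/-- oversubscribed project -/
def Over (t : Fin I.n₂ → ℕ) (p : Fin I.n₂) : Prop := I.c p < (I.onProj (I.asg t) p).card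

/-- lecturer that has to reject his worst student -/
def Bad (t : Fin I.n₂ → ℕ) (l : Fin I.n₃) : Prop :=
  I.d l < (I.onLec (I.asg t) l).card ∨
    ((∀ l', (I.onLec (I.asg t) l').card ≤ I.d l') ∧
      ∃ p, I.lec p = l ∧ (I.onProj (I.asg t) p).card < I.q p)

open Classical in
/-- one round -/
noncomputable def step (t : Fin I.n₂ → ℕ) (p : Fin I.n₂) : ℕ :=
  if ∃ p', I.Over t p' then
    (if I.Over t p then (I.onProj (I.asg t) p).sup (I.rk (I.lec p)) else t p)
  else if I.Bad t (I.lec p) then min (t p) ((I.onLec (I.asg t) (I.lec p)).sup (I.rk (I.lec p)))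
  else t p

/-- the final test -/
def Check (t : Fin I.n₂ → ℕ) : Prop :=
  (∀ p, ¬ I.Over t p) ∧ (∀ l, ¬ I.Bad t l) ∧
    ∀ p, t p = I.n₁ ∨ I.c p ≤ (I.onProj (I.asg t) p).card ∨
      (I.d (I.lec p) ≤ (I.onLec (I.asg t) (I.lec p)).card ∧ ∀ p', I.lec p' = I.lec p → t p' ≤ t p)

variable {I}

theorem mem_onProj {M : Finset (Fin I.n₁ × Fin I.n₂)} {p : Fin I.n₂} {s : Fin I.n₁} :
    s ∈ I.onProj M p ↔ (s, p) ∈ M := by simp [onProj]

theorem mem_onLec {M : Finset (Fin I.n₁ × Fin I.n₂)} {l : Fin I.n₃} {s : Fin I.n₁} :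
    s ∈ I.onLec M l ↔ ∃ p, I.lec p = l ∧ (s, p) ∈ M := by simp [onLec]

theorem mem_asg {t : Fin I.n₂ → ℕ} {s : Fin I.n₁} {p : Fin I.n₂} :
    (s, p) ∈ I.asg t ↔ I.top t s = some p := by simp [asg]

theorem asg_pref {t : Fin I.n₂ → ℕ} {s : Fin I.n₁} {p : Fin I.n₂} (h : (s, p) ∈ I.asg t) :
    p ∈ I.pref s := List.mem_of_find?_eq_some (mem_asg.1 h)

theorem asg_lt {t : Fin I.n₂ → ℕ} {s : Fin I.n₁} {p : Fin I.n₂} (h : (s, p) ∈ I.asg t) :
    I.rk (I.lec p) s < t p := by simpa using List.find?_some (mem_asg.1 h)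

theorem asg_fun {t : Fin I.n₂ → ℕ} {s : Fin I.n₁} {p p' : Fin I.n₂} (h : (s, p) ∈ I.asg t)
    (h' : (s, p') ∈ I.asg t) : p = p' := by
  have := (mem_asg.1 h).symm.trans (mem_asg.1 h')
  simpa using this

theorem asg_mono {t t' : Fin I.n₂ → ℕ} (hle : ∀ p, t' p ≤ t p) {s : Fin I.n₁} {p : Fin I.n₂}
    (h : (s, p) ∈ I.asg t) (hp : I.rk (I.lec p) s < t' p) : (s, p) ∈ I.asg t' :=
  mem_asg.2 (find?_mono (mem_asg.1 h) (fun y hy => by
    simp only [decide_eq_true_eq] at hy ⊢; exact hy.trans_le (hle y)) (by simpa using hp))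

theorem asg_best {t : Fin I.n₂ → ℕ} {s : Fin I.n₁} {p : Fin I.n₂} (hp : p ∈ I.pref s)
    (hlt : I.rk (I.lec p) s < t p) :
    ∃ p', (s, p') ∈ I.asg t ∧ (I.pref s).idxOf p' ≤ (I.pref s).idxOf p := by
  cases h : I.top t s with
  | none =>
    have := List.find?_eq_none.1 h p hp
    simp at this; omega
  | some p' => exact ⟨p', mem_asg.2 h, find?_idx_le h hp (by simpa using hlt)⟩

theorem mem_rank_of {s : Fin I.n₁} {p : Fin I.n₂} (hp : p ∈ I.pref s) : s ∈ I.rank (I.lec p) :=
  (I.mem_rank _ _).2 ⟨p, hp, rfl⟩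

theorem rk_lt {l : Fin I.n₃} {s : Fin I.n₁} (h : s ∈ I.rank l) : I.rk l s < I.n₁ :=
  (List.idxOf_lt_length_of_mem h).trans_le (by simpa using (I.rank_nodup l).length_le_card)

theorem rk_inj {l : Fin I.n₃} {s s' : Fin I.n₁} (h : s ∈ I.rank l) (e : I.rk l s = I.rk l s') :
    s = s' := (List.idxOf_inj h).1 e

theorem prefersToWorst_iff {l : Fin I.n₃} {s : Fin I.n₁} {X : Finset (Fin I.n₁)} :
    I.PrefersToWorst l s X ↔ ∃ w ∈ X, I.rk l s < I.rk l w := by
  constructor
  · rintro ⟨w, hw, -, h⟩; exact ⟨w, hw, h⟩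
  · rintro ⟨w, hw, h⟩
    obtain ⟨v, hv, hmax⟩ := X.exists_max_image (I.rk l) ⟨w, hw⟩
    exact ⟨v, hv, hmax, h.trans_le (hmax w hw)⟩

theorem onProj_subset (M : Finset (Fin I.n₁ × Fin I.n₂)) (p : Fin I.n₂) :
    I.onProj M p ⊆ I.onLec M (I.lec p) := fun _ h => mem_onLec.2 ⟨p, rfl, mem_onProj.1 h⟩

theorem card_onLec {M : Finset (Fin I.n₁ × Fin I.n₂)}
    (hM : ∀ s p p', (s, p) ∈ M → (s, p') ∈ M → p = p') (l : Fin I.n₃) :
    (I.onLec M l).card = ∑ p ∈ univ.filter (fun p => I.lec p = l), (I.onProj M p).card := by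
  rw [← card_biUnion]
  · congr 1
    ext s
    simp [mem_onLec, mem_onProj]
  · intro p _ p' _ hne
    rw [Function.onFun, disjoint_left]
    intro s h1 h2
    exact hne (hM s p p' (mem_onProj.1 h1) (mem_onProj.1 h2))

theorem sum_card_onLec {M : Finset (Fin I.n₁ × Fin I.n₂)}
    (hM : ∀ s p p', (s, p) ∈ M → (s, p') ∈ M → p = p') :
    ∑ l, (I.onLec M l).card = (univ.filter (fun s => ∃ p, (s, p) ∈ M)).card := by
  rw [← card_biUnion]
  · congr 1
    ext s
    simp [mem_onLec]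
  · intro l _ l' _ hne
    rw [Function.onFun, disjoint_left]
    intro s h1 h2
    obtain ⟨p, rfl, h3⟩ := mem_onLec.1 h1
    obtain ⟨p', rfl, h4⟩ := mem_onLec.1 h2
    exact hne (by rw [hM s p p' h3 h4])

/-- soundness of the final test -/
theorem Check.sound {t : Fin I.n₂ → ℕ} (h : I.Check t) : I.IsSolution (I.asg t) := by
  obtain ⟨h1, h2, h3⟩ := h
  have hl : ∀ l, (I.onLec (I.asg t) l).card ≤ I.d l := fun l => by
    by_contra hc
    exact h2 l (Or.inl (not_le.1 hc))
  refine ⟨⟨fun s p => asg_pref, fun s p p' => asg_fun, fun p => not_lt.1 (h1 p), hl⟩, ?_, ?_⟩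
  · rintro s p ⟨hn, hp, hpref, hb⟩
    have hge : t p ≤ I.rk (I.lec p) s := by
      by_contra hc
      obtain ⟨p', hp', hle⟩ := asg_best hp (not_le.1 hc)
      rcases hpref with h | ⟨p'', hp'', hlt⟩
      · exact h p' hp'
      · rw [asg_fun hp'' hp'] at hlt; omega
    have hlt := rk_lt (mem_rank_of hp)
    have hc : ¬ I.PrefersToWorst (I.lec p) s (I.onProj (I.asg t) p) := by
      rw [prefersToWorst_iff]
      rintro ⟨w, hw, hlt⟩
      have := asg_lt (mem_onProj.1 hw)
      omega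
    rcases h3 p with h | h | ⟨h, h'⟩
    · omega
    · rcases hb with hb | hb | hb
      · omega
      · omega
      · exact hc hb.2
    · have hw : ∀ w ∈ I.onLec (I.asg t) (I.lec p), I.rk (I.lec p) w < I.rk (I.lec p) s := by
        intro w hw
        obtain ⟨p', e, hw⟩ := mem_onLec.1 hw
        have h4 := asg_lt hw
        have h5 := h' p' e
        rw [e] at h4
        omega
      rcases hb with hb | ⟨-, -, hb | hb⟩ | hb
      · omega
      · exact lt_irrefl _ (hw s hb)
      · obtain ⟨w, hw', hlt⟩ := prefersToWorst_iff.1 hb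
        have := hw w hw'
        omega
      · exact hc hb.2
  · intro p
    by_contra hc
    exact h2 (I.lec p) (Or.inr ⟨hl, p, rfl, not_le.1 hc⟩)

section complete

variable {N : Finset (Fin I.n₁ × Fin I.n₂)} {t : Fin I.n₂ → ℕ}

/-- a pair of the current assignment outside the solution `N` satisfies the first conditions of a
blocking pair of `N`, so it violates the last one -/
theorem nonblock (hN : I.IsSolution N) (ht : ∀ s p, (s, p) ∈ N → I.rk (I.lec p) s < t p)
    {s : Fin I.n₁} {p : Fin I.n₂} (h : (s, p) ∈ I.asg t) (hn : (s, p) ∉ N) :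
    ¬ (((I.onProj N p).card < I.c p ∧ (I.onLec N (I.lec p)).card < I.d (I.lec p)) ∨
   ((I.onProj N p).card < I.c p ∧ (I.onLec N (I.lec p)).card = I.d (I.lec p) ∧
     (s ∈ I.onLec N (I.lec p) ∨ I.PrefersToWorst (I.lec p) s (I.onLec N (I.lec p)))) ∨
   ((I.onProj N p).card = I.c p ∧ I.PrefersToWorst (I.lec p) s (I.onProj N p))) := by
  intro hb
  refine hN.2.1 s p ⟨hn, asg_pref h, ?_, hb⟩
  by_cases hs : ∃ p', (s, p') ∈ N
  · obtain ⟨p', hp'⟩ := hs
    refine Or.inr ⟨p', hp', ?_⟩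
    obtain ⟨p'', h1, h2⟩ := asg_best (hN.1.1 s p' hp') (ht s p' hp')
    rw [asg_fun h1 h] at h2
    refine lt_of_le_of_ne h2 (fun e => hn ?_)
    rwa [(List.idxOf_inj (asg_pref h)).1 e]
  · exact Or.inl (fun p' hp' => hs ⟨p', hp'⟩)

theorem exists_proj_lt (hN : I.IsSolution N) {l : Fin I.n₃}
    (h : (I.onLec N l).card < (I.onLec (I.asg t) l).card) :
    ∃ p, I.lec p = l ∧ (I.onProj N p).card < (I.onProj (I.asg t) p).card := by
  rw [card_onLec hN.1.2.1, card_onLec (fun _ _ _ => asg_fun)] at h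
  obtain ⟨p, hp, hlt⟩ := exists_lt_of_sum_lt h
  exact ⟨p, by simpa using hp, hlt⟩

theorem exists_new {p : Fin I.n₂} (h : (I.onProj N p).card < (I.onProj (I.asg t) p).card) :
    ∃ s, (s, p) ∈ I.asg t ∧ (s, p) ∉ N := by
  obtain ⟨s, h1, h2⟩ := exists_mem_notMem_of_card_lt_card h
  exact ⟨s, mem_onProj.1 h1, fun h => h2 (mem_onProj.2 h)⟩

/-- the lecturers get equally many students -/
theorem card_lec_eq (hN : I.IsSolution N) (ht : ∀ s p, (s, p) ∈ N → I.rk (I.lec p) s < t p)
    (h1 : ∀ p, ¬ I.Over t p) (h2 : ∀ l, (I.onLec (I.asg t) l).card ≤ I.d l) (l : Fin I.n₃) :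
    (I.onLec (I.asg t) l).card = (I.onLec N l).card := by
  have hle : ∀ l, (I.onLec (I.asg t) l).card ≤ (I.onLec N l).card := by
    intro l
    by_contra hc
    obtain ⟨p, rfl, hp⟩ := exists_proj_lt hN (not_le.1 hc)
    obtain ⟨s, hs, hn⟩ := exists_new hp
    have := h2 (I.lec p)
    have := not_lt.1 (h1 p)
    exact nonblock hN ht hs hn (Or.inl ⟨by omega, by omega⟩)
  have hsum : ∑ l, (I.onLec N l).card ≤ ∑ l, (I.onLec (I.asg t) l).card := by
    rw [sum_card_onLec hN.1.2.1, sum_card_onLec (fun _ _ _ => asg_fun)]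
    apply card_le_card
    intro s hs
    simp only [mem_filter, mem_univ, true_and] at hs ⊢
    obtain ⟨p, hp⟩ := hs
    obtain ⟨p', h, -⟩ := asg_best (hN.1.1 s p hp) (ht s p hp)
    exact ⟨p', h⟩
  exact (sum_eq_sum_iff_of_le (fun l _ => hle l)).1
    (le_antisymm (sum_le_sum (fun l _ => hle l)) hsum) l (mem_univ _)

/-- the key lemma -/
theorem key (hN : I.IsSolution N) (ht : ∀ s p, (s, p) ∈ N → I.rk (I.lec p) s < t p)
    (h1 : ∀ p, ¬ I.Over t p) {l : Fin I.n₃} (hb : I.Bad t l) :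
    (I.onLec N l).card = I.d l ∧
      ∃ s ∈ I.onLec (I.asg t) l, ∀ w ∈ I.onLec N l, I.rk l w < I.rk l s := by
  have hex : ∃ p, I.lec p = l ∧ (I.onProj N p).card < (I.onProj (I.asg t) p).card := by
    rcases hb with hb | ⟨h2, p₀, rfl, hp₀⟩
    · exact exists_proj_lt hN ((hN.1.2.2.2 l).trans_lt hb)
    · have e := card_lec_eq hN ht h1 h2 (I.lec p₀)
      rw [card_onLec hN.1.2.1, card_onLec (fun _ _ _ => asg_fun)] at e
      by_contra hc
      push Not at hc
      have := sum_lt_sum (s := univ.filter (fun p => I.lec p = I.lec p₀))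
        (f := fun p => (I.onProj (I.asg t) p).card) (g := fun p => (I.onProj N p).card)
        (fun p hp => hc p (by simpa using hp)) ⟨p₀, by simp, hp₀.trans_le (hN.2.2 p₀)⟩
      omega
  obtain ⟨p, rfl, hp⟩ := hex
  obtain ⟨s, hs, hn⟩ := exists_new hp
  have hc := not_lt.1 (h1 p)
  have hnb := nonblock hN ht hs hn
  have hd := hN.1.2.2.2 (I.lec p)
  have hfull : (I.onLec N (I.lec p)).card = I.d (I.lec p) := by
    by_contra hne
    exact hnb (Or.inl ⟨by omega, by omega⟩)
  refine ⟨hfull, s, mem_onLec.2 ⟨p, rfl, hs⟩, fun w hw => ?_⟩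
  by_contra hc'
  refine hnb (Or.inr (Or.inl ⟨by omega, hfull, ?_⟩))
  rcases (not_lt.1 hc').eq_or_lt with e | hlt
  · rw [rk_inj (mem_rank_of (asg_pref hs)) e]; exact Or.inl hw
  · exact Or.inr (prefersToWorst_iff.2 ⟨w, hw, hlt⟩)

theorem over_card {p : Fin I.n₂} (h : I.Over t p) :
    I.c p ≤ ((I.onProj (I.asg t) p).filter
      (fun s => I.rk (I.lec p) s < (I.onProj (I.asg t) p).sup (I.rk (I.lec p)))).card := by
  have hne : (I.onProj (I.asg t) p).Nonempty := card_pos.1 (by unfold Over at h; omega)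
  obtain ⟨w, hw, e⟩ := exists_mem_eq_sup _ hne (I.rk (I.lec p))
  have hsub : (I.onProj (I.asg t) p).erase w ⊆ (I.onProj (I.asg t) p).filter
      (fun s => I.rk (I.lec p) s < (I.onProj (I.asg t) p).sup (I.rk (I.lec p))) := by
    intro s hs
    obtain ⟨hne, hs⟩ := mem_erase.1 hs
    refine mem_filter.2 ⟨hs, lt_of_le_of_ne (le_sup hs) (fun e' => hne ?_)⟩
    exact rk_inj (mem_rank_of (asg_pref (mem_onProj.1 hs))) (e'.trans e)
  have := card_le_card hsub
  rw [card_erase_of_mem hw] at this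
  unfold Over at h
  omega

theorem over_lt {p : Fin I.n₂} (h : I.Over t p) :
    (I.onProj (I.asg t) p).sup (I.rk (I.lec p)) < t p := by
  have hne : (I.onProj (I.asg t) p).Nonempty := card_pos.1 (by unfold Over at h; omega)
  obtain ⟨w, hw, e⟩ := exists_mem_eq_sup _ hne (I.rk (I.lec p))
  rw [e]
  exact asg_lt (mem_onProj.1 hw)

theorem over_keep (hN : I.IsSolution N) (ht : ∀ s p, (s, p) ∈ N → I.rk (I.lec p) s < t p)
    {p : Fin I.n₂} (h : I.Over t p) {s : Fin I.n₁} (hs : (s, p) ∈ N) :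
    I.rk (I.lec p) s < (I.onProj (I.asg t) p).sup (I.rk (I.lec p)) := by
  by_contra hc
  have h1 := over_card h
  have h2 := card_erase_of_mem (mem_onProj.2 hs)
  have h3 := hN.1.2.2.1 p
  have h4 : 0 < (I.onProj N p).card := card_pos.2 ⟨s, mem_onProj.2 hs⟩
  obtain ⟨s', h5, h6⟩ := exists_mem_notMem_of_card_lt_card (s := (I.onProj N p).erase s)
    (lt_of_lt_of_le (by omega) h1)
  obtain ⟨h5, h7⟩ := mem_filter.1 h5
  have h8 : I.rk (I.lec p) s' < I.rk (I.lec p) s := by omega
  have h9 : (s', p) ∉ N := fun h => h6 (mem_erase.2 ⟨by rintro rfl; omega, mem_onProj.2 h⟩)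
  have hd := hN.1.2.2.2 (I.lec p)
  apply nonblock hN ht (mem_onProj.1 h5) h9
  rcases h3.eq_or_lt with e | hlt
  · exact Or.inr (Or.inr ⟨e, prefersToWorst_iff.2 ⟨s, mem_onProj.2 hs, h8⟩⟩)
  · rcases hd.eq_or_lt with e | hlt'
    · exact Or.inr (Or.inl ⟨hlt, e, Or.inr
        (prefersToWorst_iff.2 ⟨s, onProj_subset _ _ (mem_onProj.2 hs), h8⟩)⟩)
    · exact Or.inl ⟨hlt, hlt'⟩

theorem step_le (t : Fin I.n₂ → ℕ) (p : Fin I.n₂) : I.step t p ≤ t p := by
  unfold step
  split_ifs with h1 h2 h3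
  · exact (over_lt h2).le
  · exact le_rfl
  · exact min_le_left _ _
  · exact le_rfl

variable (I N) in
/-- the invariant, relative to a solution `N` -/
def Inv (t : Fin I.n₂ → ℕ) : Prop :=
  (∀ s p, (s, p) ∈ N → I.rk (I.lec p) s < t p) ∧
    ∀ p, t p = I.n₁ ∨ I.c p ≤ (I.onProj (I.asg t) p).card ∨
      ((I.onLec N (I.lec p)).card = I.d (I.lec p) ∧ ∀ p', I.lec p' = I.lec p → t p' ≤ t p)

theorem Inv.step (hN : I.IsSolution N) (h : I.Inv N t) : I.Inv N (I.step t) := by
  obtain ⟨ht, h2⟩ := h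
  have same : ∀ p, I.step t p = t p → (I.step t p = I.n₁ ∨
      I.c p ≤ (I.onProj (I.asg (I.step t)) p).card ∨
      ((I.onLec N (I.lec p)).card = I.d (I.lec p) ∧
        ∀ p', I.lec p' = I.lec p → I.step t p' ≤ I.step t p)) := by
    intro p e
    rcases h2 p with h | h | ⟨h, h'⟩
    · exact Or.inl (e.trans h)
    · refine Or.inr (Or.inl (h.trans (card_le_card (fun s hs => ?_))))
      have hs := mem_onProj.1 hs
      exact mem_onProj.2 (asg_mono (step_le t) hs (e ▸ asg_lt hs))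
    · exact Or.inr (Or.inr ⟨h, fun p' hp' => (step_le t p').trans (e ▸ h' p' hp')⟩)
  by_cases h1 : ∃ p', I.Over t p'
  · constructor
    · intro s p hs
      by_cases h3 : I.Over t p
      · rw [Inst.step, if_pos h1, if_pos h3]; exact over_keep hN ht h3 hs
      · rw [Inst.step, if_pos h1, if_neg h3]; exact ht s p hs
    · intro p
      by_cases h3 : I.Over t p
      · refine Or.inr (Or.inl ((over_card h3).trans (card_le_card (fun s hs => ?_))))
        obtain ⟨hs, hlt⟩ := mem_filter.1 hs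
        refine mem_onProj.2 (asg_mono (step_le t) (mem_onProj.1 hs) ?_)
        rwa [Inst.step, if_pos h1, if_pos h3]
      · exact same p (by rw [Inst.step, if_pos h1, if_neg h3])
  · have h1' : ∀ p, ¬ I.Over t p := fun p hp => h1 ⟨p, hp⟩
    constructor
    · intro s p hs
      by_cases h3 : I.Bad t (I.lec p)
      · rw [Inst.step, if_neg h1, if_pos h3]
        obtain ⟨-, s', hs', hw⟩ := key hN ht h1' h3
        exact lt_min (ht s p hs) ((hw s (mem_onLec.2 ⟨p, rfl, hs⟩)).trans_le (le_sup hs'))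
      · rw [Inst.step, if_neg h1, if_neg h3]; exact ht s p hs
    · intro p
      by_cases h3 : I.Bad t (I.lec p)
      · rcases le_total (t p) ((I.onLec (I.asg t) (I.lec p)).sup (I.rk (I.lec p))) with hle | hle
        · exact same p (by rw [Inst.step, if_neg h1, if_pos h3, min_eq_left hle])
        · refine Or.inr (Or.inr ⟨(key hN ht h1' h3).1, fun p' hp' => ?_⟩)
          rw [Inst.step, Inst.step, if_neg h1, if_neg h1, if_pos h3, hp', if_pos h3,
            min_eq_right hle]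
          exact min_le_right _ _
      · exact same p (by rw [Inst.step, if_neg h1, if_neg h3])

theorem Inv.progress (hN : I.IsSolution N) (h : I.Inv N t) :
    ((∀ p, ¬ I.Over t p) ∧ (∀ l, ¬ I.Bad t l)) ∨ ∑ p, I.step t p < ∑ p, t p := by
  by_cases h1 : ∃ p', I.Over t p'
  · obtain ⟨p, hp⟩ := h1
    refine Or.inr (sum_lt_sum (fun p _ => step_le t p) ⟨p, mem_univ _, ?_⟩)
    rw [Inst.step, if_pos ⟨p, hp⟩, if_pos hp]
    exact over_lt hp
  · have h1' : ∀ p, ¬ I.Over t p := fun p hp => h1 ⟨p, hp⟩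
    by_cases h2 : ∃ l, I.Bad t l
    · obtain ⟨l, hl⟩ := h2
      obtain ⟨-, s, hs, -⟩ := key hN h.1 h1' hl
      obtain ⟨w, hw, e⟩ := exists_mem_eq_sup _ ⟨s, hs⟩ (I.rk l)
      obtain ⟨p, rfl, hw'⟩ := mem_onLec.1 hw
      refine Or.inr (sum_lt_sum (fun p _ => step_le t p) ⟨p, mem_univ _, ?_⟩)
      rw [Inst.step, if_neg h1, if_pos hl, e]
      exact (min_le_right _ _).trans_lt (asg_lt hw')
    · exact Or.inl ⟨h1', fun l hl => h2 ⟨l, hl⟩⟩

theorem step_fix (h1 : ∀ p, ¬ I.Over t p) (h2 : ∀ l, ¬ I.Bad t l) : I.step t = t := by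
  funext p
  rw [Inst.step, if_neg (fun ⟨p, hp⟩ => h1 p hp), if_neg (h2 _)]

/-- completeness: if there is a solution, the final test succeeds -/
theorem complete (hN : I.IsSolution N) {k : ℕ} (hk : I.n₁ * I.n₂ < k) :
    I.Check (I.step^[k] (fun _ => I.n₁)) := by
  have hinv : ∀ i, I.Inv N (I.step^[i] (fun _ => I.n₁)) := by
    intro i
    induction i with
    | zero => exact ⟨fun s p hs => rk_lt (mem_rank_of (hN.1.1 s p hs)), fun p => Or.inl rfl⟩
    | succ i ih => rw [Function.iterate_succ_apply']; exact ih.step hN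
  have hpot : ∀ i, ((∀ p, ¬ I.Over (I.step^[i] (fun _ => I.n₁)) p) ∧
      (∀ l, ¬ I.Bad (I.step^[i] (fun _ => I.n₁)) l)) ∨
      ∑ p, (I.step^[i] (fun _ => I.n₁)) p + i ≤ I.n₁ * I.n₂ := by
    intro i
    induction i with
    | zero => right; simp [mul_comm]
    | succ i ih =>
      rw [Function.iterate_succ_apply']
      rcases (hinv i).progress hN with h | h
      · left; rw [step_fix h.1 h.2]; exact h
      · rcases ih with ih | ih
        · left; rw [step_fix ih.1 ih.2]; exact ih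
        · right; omega
  rcases hpot k with ⟨h1, h2⟩ | h
  · refine ⟨h1, h2, fun p => ?_⟩
    rcases (hinv k).2 p with h | h | ⟨h, h'⟩
    · exact Or.inl h
    · exact Or.inr (Or.inl h)
    · refine Or.inr (Or.inr ⟨?_, h'⟩)
      rw [card_lec_eq hN (hinv k).1 h1 (fun l => not_lt.1 (fun hl => h2 l (Or.inl hl))), h]
  · omega

end complete

end Inst

end Pool.Agent.P.MP_ef40db_lc
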