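import Pool.Agent.P.MP_ef40db_lc.Raw
import Pool.Agent.P.MP_ef40db_lc.Math

/-! The raw algorithm simulates the abstract one. -/

namespace Pool.Agent.P.MP_ef40db_lc

open Pool.Agent.Lib.Helper47

theorem range_eq (n : ℕ) : List.range n = (List.finRange n).map Fin.val := by
  simp

theorem card_filter_eq {n : ℕ} (P : Fin n → Prop) [DecidablePred P] :
    (Finset.univ.filter P).card = ((List.finRange n).filter (fun i => decide (P i))).length := by
  rw [Fin.univ_def]
  simp [Finset.card, Finset.filter]

theorem idxOf_map_val {n : ℕ} (l : List (Fin n)) (s : Fin n) :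
    (l.map Fin.val).idxOf s.val = l.idxOf s := by
  induction l with
  | nil => rfl
  | cons x l ih =>
    by_cases h : x = s
    · subst h; simp
    · rw [List.map_cons, List.idxOf_cons_ne _ h, List.idxOf_cons_ne _ (fun e => h (Fin.ext e)), ih]

theorem getD_ofFn {α : Type} {n : ℕ} (f : Fin n → α) (i : Fin n) (d : α) :
    (List.ofFn f).getD i.val d = f i := by
  simp [List.getD_eq_getElem?_getD]

namespace Inst

variable (I : Inst)

/-- the raw form of an instance -/
def raw : Raw :=
  (List.ofFn (fun s => (I.pref s).map Fin.val),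
   List.ofFn (fun p => [(I.lec p).val, I.c p, I.q p]),
   List.ofFn (fun l => I.d l :: (I.rank l).map Fin.val))

theorem ofLines_lines : Raw.ofLines I.lines = I.raw := by
  simp only [Raw.ofLines, lines, raw, List.tail_cons, List.headD_cons, List.getD_cons_zero,
    List.getD_cons_succ, List.append_assoc]
  rw [List.take_left' (by simp), List.drop_left' (by simp), List.take_left' (by simp),
    List.drop_left' (by simp)]

theorem raw_studs : I.raw.studs = (List.finRange I.n₁).map Fin.val := by simp [Raw.studs, raw]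
theorem raw_projs : I.raw.projs = (List.finRange I.n₂).map Fin.val := by simp [Raw.projs, raw]
theorem raw_lecs : I.raw.lecs = (List.finRange I.n₃).map Fin.val := by simp [Raw.lecs, raw]
theorem raw_lec (p : Fin I.n₂) : I.raw.lec p = I.lec p := by
  simp only [Raw.lec, raw, getD_ofFn]; rfl
theorem raw_c (p : Fin I.n₂) : I.raw.c p = I.c p := by
  simp only [Raw.c, raw, getD_ofFn]; rfl
theorem raw_q (p : Fin I.n₂) : I.raw.q p = I.q p := by
  simp only [Raw.q, raw, getD_ofFn]; rfl
theorem raw_d (l : Fin I.n₃) : I.raw.d l = I.d l := by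
  simp only [Raw.d, raw, getD_ofFn]; rfl
theorem raw_rk (l : Fin I.n₃) (s : Fin I.n₁) : I.raw.rk l s = I.rk l s := by
  simp only [Raw.rk, raw, getD_ofFn, List.tail_cons, idxOf_map_val, rk]
theorem raw_len : I.raw.1.length = I.n₁ := by simp [raw]

variable (t : Fin I.n₂ → ℕ)

theorem raw_top (s : Fin I.n₁) : I.raw.top (List.ofFn t) s = (I.top t s).map Fin.val := by
  have : I.raw.1.getD s [] = (I.pref s).map Fin.val := by simp only [raw, getD_ofFn]
  rw [Raw.top, this, List.find?_map, top]
  congr 2
  funext p
  simp only [Function.comp, raw_lec, raw_rk, getD_ofFn]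
  rw [Bool.eq_iff_iff]
  simp [Nat.blt_eq]

theorem raw_top_eq (s : Fin I.n₁) (p : Fin I.n₂) :
    (I.raw.top (List.ofFn t) s == some p.val) = decide ((s, p) ∈ I.asg t) := by
  rw [raw_top, Bool.eq_iff_iff, decide_eq_true_iff, mem_asg]
  cases I.top t s <;> simp [Fin.val_inj]

theorem raw_onProj (p : Fin I.n₂) : I.raw.onProj (List.ofFn t) p =
    ((List.finRange I.n₁).filter (fun s => decide ((s, p) ∈ I.asg t))).map Fin.val := by
  rw [Raw.onProj, raw_studs, List.filter_map]
  congr 2
  funext s
  exact raw_top_eq I t s p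

theorem raw_onLec (l : Fin I.n₃) : I.raw.onLec (List.ofFn t) l =
    ((List.finRange I.n₁).filter
      (fun s => decide (∃ p, I.lec p = l ∧ (s, p) ∈ I.asg t))).map Fin.val := by
  rw [Raw.onLec, raw_studs, List.filter_map]
  congr 2
  funext s
  simp only [Function.comp, raw_top, mem_asg]
  rw [Bool.eq_iff_iff]
  cases I.top t s <;> simp [raw_lec, Fin.val_inj]

theorem raw_onProj_length (p : Fin I.n₂) :
    (I.raw.onProj (List.ofFn t) p).length = (I.onProj (I.asg t) p).card := by
  rw [raw_onProj, List.length_map, onProj, card_filter_eq]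

theorem raw_onLec_length (l : Fin I.n₃) :
    (I.raw.onLec (List.ofFn t) l).length = (I.onLec (I.asg t) l).card := by
  rw [raw_onLec, List.length_map, onLec, card_filter_eq]

theorem raw_mx_proj (p : Fin I.n₂) (l : Fin I.n₃) :
    Raw.mx ((I.raw.onProj (List.ofFn t) p).map (fun s => I.raw.rk l s))
      = (I.onProj (I.asg t) p).sup (I.rk l) := by
  refine eq_of_forall_ge_iff (fun b => ?_)
  rw [Raw.mx_le_iff, raw_onProj, Finset.sup_le_iff]
  simp [raw_rk, mem_onProj]

theorem raw_mx_lec (l : Fin I.n₃) :
    Raw.mx ((I.raw.onLec (List.ofFn t) l).map (fun s => I.raw.rk l s))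
      = (I.onLec (I.asg t) l).sup (I.rk l) := by
  refine eq_of_forall_ge_iff (fun b => ?_)
  rw [Raw.mx_le_iff, raw_onLec, Finset.sup_le_iff]
  simp only [List.map_map, List.mem_map, List.mem_filter, List.mem_finRange, true_and,
    decide_eq_true_eq, Function.comp, raw_rk, mem_onLec]
  constructor
  · intro h s hs; exact h _ ⟨s, hs, rfl⟩
  · rintro h _ ⟨s, hs, rfl⟩; exact h s hs

theorem raw_ovr (p : Fin I.n₂) : I.raw.ovr (List.ofFn t) p = true ↔ I.Over t p := by
  simp [Raw.ovr, Over, raw_c, raw_onProj_length, Nat.blt_eq]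

theorem raw_bad (l : Fin I.n₃) : I.raw.bad (List.ofFn t) l = true ↔ I.Bad t l := by
  simp [Raw.bad, Bad, raw_d, raw_q, raw_lec, raw_onProj_length, raw_onLec_length, Nat.blt_eq,
    -List.map_coe_finRange_eq_range, raw_lecs, raw_projs, Fin.val_inj]

theorem raw_step : I.raw.step (List.ofFn t) = List.ofFn (I.step t) := by
  rw [Raw.step, raw_projs, List.map_map, List.ofFn_eq_map (f := I.step t)]
  congr 1
  funext p
  have h1 : ((List.finRange I.n₂).map Fin.val).any (fun p' => I.raw.ovr (List.ofFn t) p') = true
      ↔ ∃ p', I.Over t p' := by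
    simp [-List.map_coe_finRange_eq_range, raw_ovr]
  classical
  simp only [Function.comp, raw_lec, raw_mx_proj, raw_mx_lec, getD_ofFn, step, Bool.cond_eq_ite]
  exact if_congr h1 (if_congr (raw_ovr I t p) rfl rfl) (if_congr (raw_bad I t _) rfl rfl)

theorem raw_check : I.raw.check (List.ofFn t) = true ↔ I.Check t := by
  simp only [Raw.check, Check, raw_projs, raw_lecs, List.all_map, Bool.and_eq_true,
    List.all_eq_true, List.mem_finRange, not_true, false_or, Function.comp, Bool.not_eq_true',
    ← Bool.not_eq_true, raw_ovr, raw_bad, raw_len, raw_lec, raw_c, raw_d, getD_ofFn,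
    raw_onProj_length, raw_onLec_length, Bool.or_eq_true, beq_iff_eq, Nat.ble_eq, bne_iff_ne,
    ne_eq, Fin.val_inj, imp_iff_not_or]

theorem raw_table : I.raw.table (List.ofFn t) = I.table (I.asg t) := by
  simp only [Raw.table, table, raw_studs, raw_projs, List.flatMap_map, List.map_map,
    Function.comp_def, raw_top_eq]

theorem raw_iter (k : ℕ) :
    I.raw.step^[k] I.raw.start = List.ofFn (I.step^[k] (fun _ => I.n₁)) := by
  induction k with
  | zero => simp [Raw.start, Raw.projs, raw]
  | succ k ih => rw [Function.iterate_succ_apply', Function.iterate_succ_apply', ih, raw_step]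

theorem raw_rounds : I.n₁ * I.n₂ < I.raw.rounds.length := by
  simp [Raw.rounds, Raw.studs, Raw.projs, raw, List.length_flatMap]

theorem alg_correct :
    (∃ M, I.IsSolution M ∧ alg I.encode = true :: I.table M) ∨
      (alg I.encode = [false] ∧ ¬ ∃ M, I.IsSolution M) := by
  have e : alg I.encode = I.raw.answer := by
    rw [alg, ← ofLines_lines]
    exact congrArg (fun L => (Raw.ofLines L).answer) (parseLines_encLines I.lines)
  rw [e, Raw.answer, Raw.final, raw_iter]
  cases h : I.raw.check (List.ofFn (I.step^[I.raw.rounds.length] (fun _ => I.n₁)))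
  · refine Or.inr ⟨rfl, ?_⟩
    rintro ⟨N, hN⟩
    have := (raw_check I _).2 (complete hN (raw_rounds I))
    rw [h] at this
    cases this
  · exact Or.inl ⟨_, ((raw_check I _).1 h).sound, by rw [raw_table]; rfl⟩

end Inst

end Pool.Agent.P.MP_ef40db_lc
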