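import Pool.Agent.P.MP_ef40db_lc.OptFlow

/-! Correctness of the transport algorithm: its output is a minimum cut. -/

namespace Pool.Agent.P.MP_ef40db_lc

open Finset

namespace Net

variable {N : Net} {f g : Tab} {a p b k : ℕ}

theorem sum_range_map (n : ℕ) (F : ℕ → ℕ) : ((List.range n).map F).sum = ∑ i ∈ range n, F i := by
  induction n with
  | zero => rfl
  | succ n ih => simp [List.range_succ, sum_range_succ, ih]

theorem mem_nodes : a ∈ N.nodes ↔ a < N.1.length := List.mem_range

theorem row_eq (N : Net) (f : Tab) (a : ℕ) : N.row f a = ∑ p ∈ range N.1.length, ent f a p :=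
  sum_range_map _ _

theorem col_eq (N : Net) (f : Tab) (p : ℕ) : N.col f p = ∑ a ∈ range N.1.length, ent f a p :=
  sum_range_map _ _

theorem ent_tab (G : ℕ → ℕ → ℕ) (ha : a < N.1.length) (hp : p < N.1.length) :
    ent (N.nodes.map fun a => N.nodes.map fun p => G a p) a p = G a p := by
  simp [ent, nodes, List.getD_eq_getElem?_getD, ha, hp]

/-- the levels of the residual graph -/
def Lv (N : Net) (f : Tab) : ℕ → ℕ → Prop
  | 0, _ => False
  | k + 1, a => a < N.1.length ∧ ∃ p < N.1.length, N.E a p = true ∧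
      (N.col f p < N.v p ∨ ∃ b, Lv N f k b ∧ 0 < ent f b p)

theorem mem_iter (k : ℕ) : ∀ a, a ∈ (N.nxt f)^[k] [] ↔ N.Lv f k a := by
  induction k with
  | zero => simp [Lv]
  | succ k ih =>
    intro a
    rw [Function.iterate_succ_apply', nxt, Lv]
    simp only [List.mem_filter, mem_nodes, List.any_eq_true, Bool.and_eq_true, Bool.or_eq_true,
      Nat.blt_eq, ih]

theorem mem_lev (hk : k ≤ N.1.length) : a ∈ N.lev f k ↔ N.Lv f k a := by
  rw [lev, mem_iter, List.length_take, nodes, List.length_range, min_eq_left hk]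

theorem Lv.lt (h : N.Lv f k a) : a < N.1.length := by
  cases k with
  | zero => exact h.elim
  | succ k => exact h.1

theorem Lv.step {j : ℕ} (h : ∀ a, N.Lv f k a → N.Lv f j a) (a : ℕ) (ha : N.Lv f (k + 1) a) :
    N.Lv f (j + 1) a := by
  obtain ⟨h1, p, h2, h3, h4⟩ := ha
  exact ⟨h1, p, h2, h3, h4.imp_right fun ⟨b, h5, h6⟩ => ⟨b, h b h5, h6⟩⟩

theorem Lv.succ : ∀ {k a : ℕ}, N.Lv f k a → N.Lv f (k + 1) a
  | 0, _, h => h.elim
  | _ + 1, a, h => Lv.step (fun _ => Lv.succ) a h

theorem Lv.mono {j : ℕ} (h : N.Lv f k a) (e : k ≤ j) : N.Lv f j a := by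
  induction e with
  | refl => exact h
  | step _ ih => exact ih.succ

theorem Lv.closed (h : N.Lv f (N.1.length + 1) a) : N.Lv f N.1.length a := by
  classical
  have key : ∀ j, (∀ a, N.Lv f (j + 1) a → N.Lv f j a) ∨
      j + 1 ≤ ((range N.1.length).filter (N.Lv f (j + 1))).card := by
    intro j
    by_cases hj : ∀ a, N.Lv f (j + 1) a → N.Lv f j a
    · exact Or.inl hj
    refine Or.inr ?_
    induction j with
    | zero =>
      push Not at hj
      obtain ⟨a, ha, -⟩ := hj
      exact card_pos.2 ⟨a, mem_filter.2 ⟨mem_range.2 ha.lt, ha⟩⟩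
    | succ j ih =>
      refine (ih fun h => hj (Lv.step h)).trans_lt (card_lt_card ⟨fun a ha => ?_, fun hs => ?_⟩)
      · exact mem_filter.2 ⟨(mem_filter.1 ha).1, (mem_filter.1 ha).2.succ⟩
      · exact hj fun a ha => (mem_filter.1 (hs (mem_filter.2 ⟨mem_range.2 ha.lt, ha⟩))).2
  rcases key N.1.length with h1 | h1
  · exact h1 a h
  · have := h1.trans ((card_filter_le _ _).trans (card_range _).le)
    omega

/-- feasible flows -/
def Feas (N : Net) (f : Tab) : Prop :=
  (∀ a < N.1.length, N.row f a ≤ N.u a) ∧ (∀ p < N.1.length, N.col f p ≤ N.v p) ∧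
    ∀ a < N.1.length, ∀ p < N.1.length, 0 < ent f a p → N.E a p = true

/-- the value of a flow -/
def val (N : Net) (f : Tab) : ℕ := ∑ a ∈ range N.1.length, N.row f a

/-- some supply node of level at most `k` is not saturated -/
def Imp (N : Net) (f : Tab) (k : ℕ) : Prop := ∃ a, N.Lv f k a ∧ N.row f a < N.u a

theorem ent_le_row (hp : p < N.1.length) : ent f a p ≤ N.row f a := by
  rw [row_eq]
  exact single_le_sum (f := fun p => ent f a p) (fun _ _ => Nat.zero_le _) (mem_range.2 hp)

theorem mem_trip {t : ℕ × ℕ × ℕ} :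
    t ∈ N.trip ↔ t.1 < N.1.length ∧ t.2.1 < N.1.length ∧ t.2.2 < N.1.length := by
  obtain ⟨a, p, b⟩ := t
  simp [trip, mem_nodes]

theorem ok_iff (hk : k ≤ N.1.length) {t : ℕ × ℕ × ℕ} : N.ok f (N.lev f k) t = true ↔
    N.row f t.1 < N.u t.1 ∧ N.E t.1 t.2.1 = true ∧
      (N.col f t.2.1 < N.v t.2.1 ∨ (N.Lv f k t.2.2 ∧ 0 < ent f t.2.2 t.2.1)) := by
  simp only [ok, Bool.and_eq_true, Bool.or_eq_true, Nat.blt_eq, List.contains_iff_mem, mem_lev hk]

theorem any_ok (hk : k ≤ N.1.length) :
    N.trip.any (fun t => N.ok f (N.lev f k) t) = true ↔ N.Imp f (k + 1) := by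
  simp only [List.any_eq_true, mem_trip, ok_iff hk]
  constructor
  · rintro ⟨⟨a, p, b⟩, ⟨h1, h2, -⟩, h3, h4, h5⟩
    exact ⟨a, ⟨h1, p, h2, h4, h5.imp_right fun h => ⟨b, h⟩⟩, h3⟩
  · rintro ⟨a, ⟨h1, p, h2, h4, h5 | ⟨b, h5⟩⟩, h3⟩
    · exact ⟨(a, p, a), ⟨h1, h2, h1⟩, h3, h4, Or.inl h5⟩
    · exact ⟨(a, p, b), ⟨h1, h2, h5.1.lt⟩, h3, h4, Or.inr h5⟩

theorem sum_ind (n c : ℕ) (hc : c < n) (P : Prop) [Decidable P] :
    ∑ i ∈ range n, (if P ∧ i = c then 1 else 0) = if P then 1 else 0 := by
  by_cases h : P <;> simp [h, hc]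

theorem sum_ind' (n c : ℕ) (hc : c < n) (P : Prop) [Decidable P] :
    ∑ i ∈ range n, (if i = c ∧ P then 1 else 0) = if P then 1 else 0 := by
  simp only [and_comm (b := P), sum_ind n c hc]

/-- one more unit on the pair `(a, p)` -/
theorem aug_spec (hf : N.Feas f) (ha : a < N.1.length) (hp : p < N.1.length)
    (h1 : N.row f a < N.u a) (h2 : N.E a p = true) (h3 : N.col f p < N.v p) :
    N.Feas (N.upd f (a, p, b)) ∧ N.val (N.upd f (a, p, b)) = N.val f + 1 := by
  have e : ∀ x < N.1.length, ∀ y < N.1.length,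
      ent (N.upd f (a, p, b)) x y = ent f x y + if x = a ∧ y = p then 1 else 0 := by
    intro x hx y hy
    have h4 : ent f x y ≤ N.row f x := ent_le_row hy
    have h5 := hf.1 x hx
    have h6 : Nat.blt (N.col f p) (N.v p) = true := by rw [Nat.blt_eq]; exact h3
    rw [upd, ent_tab _ hx hy, h6]
    by_cases h : x = a ∧ y = p
    · obtain ⟨rfl, rfl⟩ := h
      simp; omega
    · have : (x == a && y == p) = false := by simpa using h
      simp [this, h]; omega
  have er : ∀ x < N.1.length,
      N.row (N.upd f (a, p, b)) x = N.row f x + if x = a then 1 else 0 := fun x hx => by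
    rw [row_eq, row_eq, sum_congr rfl fun y hy => e x hx y (mem_range.1 hy), sum_add_distrib,
      sum_ind _ _ hp]
  have ec : ∀ y < N.1.length,
      N.col (N.upd f (a, p, b)) y = N.col f y + if y = p then 1 else 0 := fun y hy => by
    rw [col_eq, col_eq, sum_congr rfl fun x hx => e x (mem_range.1 hx) y hy, sum_add_distrib,
      sum_ind' _ _ ha]
  refine ⟨⟨fun x hx => ?_, fun y hy => ?_, fun x hx y hy h => ?_⟩, ?_⟩
  · have := hf.1 x hx
    rw [er x hx]; split_ifs with h
    · subst h; omega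
    · omega
  · have := hf.2.1 y hy
    rw [ec y hy]; split_ifs with h
    · subst h; omega
    · omega
  · rw [e x hx y hy] at h
    split_ifs at h with h'
    · rw [h'.1, h'.2, h2]
    · exact hf.2.2 x hx y hy h
  · rw [val, val, sum_congr rfl fun x hx => er x (mem_range.1 hx), sum_add_distrib]
    simp [ha]

/-- one unit is moved from the pair `(b, p)` to the pair `(a, p)` -/
theorem shift_spec (hf : N.Feas f) (ha : a < N.1.length) (hp : p < N.1.length)
    (h1 : N.row f a < N.u a) (h2 : N.E a p = true) (h3 : ¬ N.col f p < N.v p)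
    (h4 : N.Lv f k b) (h5 : 0 < ent f b p) (h6 : ¬ N.Imp f k) :
    N.Feas (N.upd f (a, p, b)) ∧ N.val (N.upd f (a, p, b)) = N.val f ∧
      N.Imp (N.upd f (a, p, b)) k := by
  have hb := h4.lt
  have hab : a ≠ b := by rintro rfl; exact h6 ⟨a, h4, h1⟩
  have e : ∀ x < N.1.length, ∀ y < N.1.length,
      ent (N.upd f (a, p, b)) x y + (if x = b ∧ y = p then 1 else 0) =
        ent f x y + if x = a ∧ y = p then 1 else 0 := by
    intro x hx y hy
    have h7 : ent f x y ≤ N.row f x := ent_le_row hy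
    have h8 := hf.1 x hx
    have h9 : Nat.blt (N.col f p) (N.v p) = false := by
      rw [← Bool.not_eq_true, Nat.blt_eq]; exact h3
    rw [upd, ent_tab _ hx hy, h9]
    by_cases h : y = p
    · subst h
      by_cases h' : x = a
      · subst h'; simp [hab, beq_false_of_ne hab]; omega
      · by_cases h'' : x = b
        · subst h''; simp [h', beq_false_of_ne h']; omega
        · simp [h', h'', beq_false_of_ne h', beq_false_of_ne h'']; omega
    · have : (y == p) = false := by simpa using h
      simp [this, h]; omega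
  have er : ∀ x < N.1.length, N.row (N.upd f (a, p, b)) x + (if x = b then 1 else 0) =
      N.row f x + if x = a then 1 else 0 := fun x hx => by
    rw [row_eq, row_eq, ← sum_ind _ _ hp, ← sum_ind _ _ hp (x = a), ← sum_add_distrib,
      ← sum_add_distrib]
    exact sum_congr rfl fun y hy => e x hx y (mem_range.1 hy)
  have ec : ∀ y < N.1.length, N.col (N.upd f (a, p, b)) y = N.col f y := fun y hy => by
    have := sum_congr rfl fun x (hx : x ∈ range N.1.length) => e x (mem_range.1 hx) y hy
    rw [sum_add_distrib, sum_add_distrib, sum_ind' _ _ ha, sum_ind' _ _ hb, ← col_eq,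
      ← col_eq] at this
    omega
  have key : ∀ j c, N.Lv f j c →
      N.Lv (N.upd f (a, p, b)) j c ∨ N.Lv (N.upd f (a, p, b)) j b := by
    intro j
    induction j with
    | zero => exact fun c h => h.elim
    | succ j ih =>
      rintro c ⟨g1, y, g2, g3, g4 | ⟨x, g4, g5⟩⟩
      · exact Or.inl ⟨g1, y, g2, g3, Or.inl (by rw [ec y g2]; exact g4)⟩
      · by_cases hx : x = b
        · subst hx; exact Or.inr ((ih x g4).elim id id).succ
        · refine (ih x g4).imp (fun h => ⟨g1, y, g2, g3, Or.inr ⟨x, h, ?_⟩⟩) Lv.succ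
          have := e x g4.lt y g2
          rw [if_neg (fun h => hx h.1)] at this
          omega
  refine ⟨⟨fun x hx => ?_, fun y hy => ?_, fun x hx y hy h => ?_⟩, ?_,
    b, (key k b h4).elim id id, ?_⟩
  · have := hf.1 x hx
    have := er x hx
    by_cases h : x = a
    · subst h; rw [if_pos rfl] at this; omega
    · rw [if_neg h] at this; omega
  · rw [ec y hy]; exact hf.2.1 y hy
  · have := e x hx y hy
    by_cases h' : x = a ∧ y = p
    · rw [h'.1, h'.2, h2]
    · rw [if_neg h'] at this
      exact hf.2.2 x hx y hy (by omega)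
  · have := sum_congr rfl fun x (hx : x ∈ range N.1.length) => er x (mem_range.1 hx)
    rw [sum_add_distrib, sum_add_distrib] at this
    simpa [val, ha, hb] using this
  · have := er b hb
    have := hf.1 b hb
    rw [if_pos rfl, if_neg hab.symm] at *
    omega

theorem Imp.mono {j : ℕ} (h : N.Imp f k) (e : k ≤ j) : N.Imp f j :=
  let ⟨a, h1, h2⟩ := h
  ⟨a, h1.mono e, h2⟩

theorem step_done (h : ¬ N.Imp f N.1.length) : N.step f = f := by
  rw [step, List.find?_eq_none.2 fun k hk => ?_]
  · rfl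
  · rw [any_ok (mem_nodes.1 hk).le]
    exact fun h' => h (h'.mono (mem_nodes.1 hk))

theorem step_spec (hf : N.Feas f) (hk : k < N.1.length) (h : N.Imp f (k + 1)) :
    N.Feas (N.step f) ∧ (N.val (N.step f) = N.val f + 1 ∨
      (N.val (N.step f) = N.val f ∧ N.Imp (N.step f) k)) := by
  rw [step]
  cases e : N.nodes.find? fun k => N.trip.any (fun t => N.ok f (N.lev f k) t) with
  | none =>
    exact absurd ((any_ok hk.le).2 h) (List.find?_eq_none.1 e k (mem_nodes.2 hk))
  | some j =>
    obtain ⟨e1, e2, e3⟩ := List.find?_range_eq_some.1 e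
    have hj : j < N.1.length := List.mem_range.1 e2
    have hjk : j ≤ k := by
      by_contra hc
      have := e3 k (not_le.1 hc)
      rw [(any_ok hk.le).2 h] at this
      cases this
    have hn : ¬ N.Imp f j := by
      cases j with
      | zero => rintro ⟨_, h, -⟩; exact h
      | succ j =>
        have := e3 j j.lt_succ_self
        rw [← any_ok (by omega)]
        simpa using this
    rw [Option.bind_some]
    cases e' : N.trip.find? (fun t => N.ok f (N.lev f j) t) with
    | none =>
      obtain ⟨t, ht, h'⟩ := List.any_eq_true.1 e1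
      exact absurd h' (List.find?_eq_none.1 e' t ht)
    | some t =>
      obtain ⟨a, p, b⟩ := t
      obtain ⟨ha, hp, -⟩ := mem_trip.1 (List.mem_of_find?_eq_some e')
      obtain ⟨h1, h2, h3⟩ := (ok_iff hj.le).1 (List.find?_some e')
      rw [Option.elim_some]
      by_cases hc : N.col f p < N.v p
      · exact (aug_spec hf ha hp h1 h2 hc).imp_right Or.inl
      · obtain ⟨h4, h5⟩ := h3.resolve_left hc
        obtain ⟨g1, g2, g3⟩ := shift_spec hf ha hp h1 h2 hc h4 h5 hn
        exact ⟨g1, Or.inr ⟨g2, g3.mono hjk⟩⟩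

theorem iter_spec (hf : N.Feas f) (n : ℕ) : N.Feas (N.step^[n] f) ∧
    (¬ N.Imp (N.step^[n] f) N.1.length ∨ ∃ k < N.1.length, N.Imp (N.step^[n] f) (k + 1) ∧
      n + N.val f * N.1.length + (k + 1) ≤ N.val (N.step^[n] f) * N.1.length + N.1.length) := by
  have top : ∀ g : Tab, ¬ N.Imp g N.1.length ∨
      ∃ k < N.1.length, N.Imp g (k + 1) ∧ k + 1 = N.1.length := fun g => by
    by_cases h : N.Imp g N.1.length
    · obtain ⟨a, h1, -⟩ := id h
      have := h1.lt
      exact Or.inr ⟨N.1.length - 1, by omega, h.mono (by omega), by omega⟩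
    · exact Or.inl h
  induction n with
  | zero => exact ⟨hf, (top f).imp_right fun ⟨k, h1, h2, h3⟩ => ⟨k, h1, h2, by simp [h3]⟩⟩
  | succ n ih =>
    rw [Function.iterate_succ_apply']
    obtain ⟨h1, h2 | ⟨k, h2, h3, h4⟩⟩ := ih
    · rw [step_done h2]; exact ⟨h1, Or.inl h2⟩
    · obtain ⟨g1, g2 | ⟨g2, g3⟩⟩ := step_spec h1 h2 h3
      · refine ⟨g1, (top _).imp_right fun ⟨j, e1, e2, e3⟩ => ⟨j, e1, e2, ?_⟩⟩
        rw [g2, add_mul]; omega
      · refine ⟨g1, Or.inr ?_⟩
        cases k with
        | zero => obtain ⟨_, h, -⟩ := g3; exact h.elim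
        | succ k => exact ⟨k, by omega, g3, by rw [g2]; omega⟩

/-- the neighbourhood of a set of supply nodes -/
def Gam (N : Net) (Q : ℕ → Prop) (p : ℕ) : Prop := ∃ a < N.1.length, Q a ∧ N.E a p = true

open Classical in
/-- the capacity of the cut defined by a set of supply nodes -/
noncomputable def cut (N : Net) (Q : ℕ → Prop) : ℕ :=
  ∑ a ∈ range N.1.length, (if Q a then 0 else N.u a) +
    ∑ p ∈ range N.1.length, if N.Gam Q p then N.v p else 0

theorem cut_congr {P Q : ℕ → Prop} (h : ∀ a < N.1.length, P a ↔ Q a) : N.cut P = N.cut Q := by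
  have : N.Gam P = N.Gam Q := funext fun p => propext
    (exists_congr fun a => and_congr_right fun ha => and_congr_left' (h a ha))
  rw [cut, cut, this]
  congr 1
  exact sum_congr rfl fun a ha => by rw [propext (h a (mem_range.1 ha))]

open Classical in
theorem val_split (Q : ℕ → Prop) : N.val f =
    ∑ a ∈ range N.1.length, (if Q a then 0 else N.row f a) +
      ∑ p ∈ range N.1.length, ∑ a ∈ range N.1.length, if Q a then ent f a p else 0 := by
  rw [sum_comm, ← sum_add_distrib]
  refine sum_congr rfl fun a _ => ?_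
  split_ifs <;> simp [row_eq]

theorem val_le_cut (hf : N.Feas f) (Q : ℕ → Prop) : N.val f ≤ N.cut Q := by
  rw [val_split Q]
  refine add_le_add (sum_le_sum fun a ha => ?_) (sum_le_sum fun p hp => ?_)
  · split_ifs
    · exact le_rfl
    · exact hf.1 a (mem_range.1 ha)
  · split_ifs with h
    · refine le_trans ?_ (hf.2.1 p (mem_range.1 hp))
      rw [col_eq]
      exact sum_le_sum fun a _ => by split_ifs <;> simp
    · refine le_of_eq (sum_eq_zero fun a ha => ?_)
      split_ifs with h'
      · by_contra e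
        exact h ⟨a, mem_range.1 ha, h',
          hf.2.2 a (mem_range.1 ha) p (mem_range.1 hp) (Nat.pos_of_ne_zero e)⟩
      · rfl

theorem cut_le_val (h : ¬ N.Imp f N.1.length) :
    N.cut (fun a => ¬ N.Lv f N.1.length a) ≤ N.val f := by
  rw [val_split fun a => ¬ N.Lv f N.1.length a]
  refine add_le_add (sum_le_sum fun a ha => ?_) (sum_le_sum fun p hp => ?_)
  · split_ifs with h'
    · exact le_rfl
    · exact not_lt.1 fun e => h ⟨a, not_not.1 h', e⟩
  · split_ifs with h'
    · obtain ⟨a, h1, h2, h3⟩ := h'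
      have h4 : ¬ (N.col f p < N.v p ∨ ∃ b, N.Lv f N.1.length b ∧ 0 < ent f b p) :=
        fun e => h2 (Lv.closed ⟨h1, p, mem_range.1 hp, h3, e⟩)
      rw [not_or, not_lt, col_eq] at h4
      refine h4.1.trans (sum_le_sum fun b _ => ?_)
      split_ifs with h5
      · exact not_lt.1 fun e => h4.2 ⟨b, h5, e⟩
      · exact le_rfl
    · exact Nat.zero_le _

theorem E_scale (N : Net) (d a p : ℕ) : (N.scale d).E a p = N.E a p := rfl

theorem phase_spec {d : ℕ} (hf : (N.scale (d * 2)).Feas f)
    (h : ¬ (N.scale (d * 2)).Imp f N.1.length) :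
    (N.scale d).Feas ((N.scale d).phase f) ∧
      ¬ (N.scale d).Imp ((N.scale d).phase f) N.1.length := by
  have l1 := len_scale N d
  have l2 := len_scale N (d * 2)
  have hd : ∀ x : ℕ, 2 * (x / (d * 2)) ≤ x / d ∧ x / d ≤ 2 * (x / (d * 2)) + 1 := fun x => by
    rw [← Nat.div_div_eq_div_mul]; omega
  unfold Feas at hf
  simp only [l2, u_scale, v_scale, row_eq, col_eq, E_scale] at hf
  have e : ∀ x < N.1.length, ∀ y < N.1.length, ent ((N.scale d).dbl f) x y = 2 * ent f x y := by
    intro x hx y hy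
    rw [dbl, ent_tab _ (l1 ▸ hx) (l1 ▸ hy), u_scale]
    have h1 := hf.1 x hx
    have h2 := single_le_sum (f := fun p => ent f x p) (fun _ _ => Nat.zero_le _) (mem_range.2 hy)
    have h3 := (hd (N.u x)).1
    omega
  have f1 : (N.scale d).Feas ((N.scale d).dbl f) := by
    unfold Feas
    simp only [l1, u_scale, v_scale, row_eq, col_eq, E_scale]
    refine ⟨fun x hx => ?_, fun y hy => ?_, fun x hx y hy h => hf.2.2 x hx y hy ?_⟩
    · rw [sum_congr rfl fun y hy => e x hx y (mem_range.1 hy), ← mul_sum]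
      exact (Nat.mul_le_mul_left 2 (hf.1 x hx)).trans (hd _).1
    · rw [sum_congr rfl fun x hx => e x (mem_range.1 hx) y hy, ← mul_sum]
      exact (Nat.mul_le_mul_left 2 (hf.2.1 y hy)).trans (hd _).1
    · rw [e x hx y hy] at h; omega
  have v1 : (N.scale d).val ((N.scale d).dbl f) = 2 * (N.scale (d * 2)).val f := by
    simp only [val, l1, l2, row_eq, mul_sum]
    exact sum_congr rfl fun x hx => sum_congr rfl fun y hy => e x (mem_range.1 hx) y (mem_range.1 hy)
  have c1 : ∀ Q, (N.scale d).cut Q ≤ 2 * (N.scale (d * 2)).cut Q + 2 * N.1.length := fun Q => by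
    have one : ∀ A B : ℕ → ℕ, (∀ i, A i ≤ 2 * B i + 1) →
        ∑ a ∈ range N.1.length, A a ≤ 2 * ∑ a ∈ range N.1.length, B a + N.1.length :=
      fun A B h => (sum_le_sum fun i _ => h i).trans (by simp [sum_add_distrib, mul_sum])
    have gam : (N.scale d).Gam Q = (N.scale (d * 2)).Gam Q := by
      funext p; simp only [Gam, l1, l2, E_scale]
    rw [cut, cut, l1, l2, gam, mul_add, two_mul N.1.length, add_add_add_comm]
    refine add_le_add (one _ _ fun i => ?_) (one _ _ fun i => ?_) <;> split_ifs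
    · simp
    · rw [u_scale, u_scale]; exact (hd _).2
    · rw [v_scale, v_scale]; exact (hd _).2
    · simp
  obtain ⟨g1, g2⟩ := iter_spec f1 (N.scale d).rounds.length
  refine ⟨g1, ?_⟩
  rw [l1] at g2
  refine g2.resolve_right ?_
  rintro ⟨k, -, -, g3⟩
  have c2 := val_le_cut g1 fun a => ¬ (N.scale (d * 2)).Lv f (N.scale (d * 2)).1.length a
  have c3 := cut_le_val (l2.symm ▸ h : ¬ (N.scale (d * 2)).Imp f (N.scale (d * 2)).1.length)
  have c4 := Nat.mul_le_mul_right N.1.length (c2.trans ((c1 _).trans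
    (Nat.add_le_add_right (Nat.mul_le_mul_left 2 c3) _)))
  have r : (N.scale d).rounds.length = (N.1.length + 1) * (2 * N.1.length + 1) := by
    simp [rounds, nodes, l1, List.length_flatMap]; ring
  rw [v1] at g3
  nlinarith

theorem fold_spec (n : ℕ) (hn : n ≤ N.bitl.length) : ∀ f, (N.scale (2 ^ n)).Feas f →
    ¬ (N.scale (2 ^ n)).Imp f N.1.length →
    N.Feas ((List.range n).reverse.foldl (fun f j => (N.scale (N.pw j)).phase f) f) ∧
    ¬ N.Imp ((List.range n).reverse.foldl (fun f j => (N.scale (N.pw j)).phase f) f)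
      N.1.length := by
  induction n with
  | zero =>
    have : N.scale (2 ^ 0) = N := by simp [scale]
    rw [this]
    exact fun f h1 h2 => ⟨h1, h2⟩
  | succ n ih =>
    intro f h1 h2
    have e : N.pw n = 2 ^ n := by rw [pw, List.length_take, min_eq_left (by omega)]
    rw [List.range_succ, List.reverse_append, List.reverse_singleton, List.singleton_append,
      List.foldl_cons, e]
    obtain ⟨g1, g2⟩ := phase_spec (d := 2 ^ n) h1 h2
    exact ih (by omega) _ g1 g2

theorem u_lt (N : Net) (a : ℕ) : N.u a < 2 ^ N.bitl.length := by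
  rw [u, List.getD_eq_getElem?_getD]
  cases h : N.1[a]? with
  | none => exact Nat.two_pow_pos _
  | some x =>
    have h1 : x.bits.Sublist N.bitl :=
      List.sublist_flatten_of_mem (List.mem_map_of_mem (List.mem_append_left _
        (List.mem_of_getElem? h)))
    exact (Nat.lt_size_self x).trans_le (Nat.pow_le_pow_right two_pos
      (Nat.size_eq_bits_len x ▸ h1.length_le))

/-- the output of the algorithm is a minimum cut -/
theorem sol_spec (N : Net) (Q : ℕ → Prop) : N.cut (fun a => a ∈ N.sol) ≤ N.cut Q := by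
  have e0 : ∀ a p, ent [] a p = 0 := fun a p => by simp [ent]
  obtain ⟨h1, h2⟩ := fold_spec (N := N) _ le_rfl []
    ⟨fun a _ => by simp [row_eq, e0], fun a _ => by simp [col_eq, e0], fun a _ p _ h => by
      simp [e0] at h⟩
    (by rintro ⟨a, -, h⟩; rw [u_scale, Nat.div_eq_of_lt (u_lt N a)] at h; omega)
  refine le_trans (le_of_eq ?_) ((cut_le_val h2).trans (val_le_cut h1 Q))
  have e : ∀ a < N.1.length, a ∈ N.sol ↔ ¬ N.Lv N.flow N.1.length a := fun a ha => by
    simp [sol, mem_nodes, ha, mem_lev]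
  exact cut_congr e

theorem sol_lt (h : a ∈ N.sol) : a < N.1.length := mem_nodes.1 (List.mem_filter.1 h).1

end Net

end Pool.Agent.P.MP_ef40db_lc
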