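import Pool.Agent.P.MP_ef40db_lc.Defs

namespace Pool.Agent.P.MP_ef40db_lc

namespace Inst

variable (I : Inst) (v : Fin I.n₁ → Fin I.n₂ → ℕ) (w : Fin I.n₂ → ℕ → ℕ)

/-- the cost of `M`: `v s p` for every pair, and `w p k` for every project with `k` students -/
def cost (M : Finset (Fin I.n₁ × Fin I.n₂)) : ℕ :=
  ∑ x ∈ M, v x.1 x.2 + ∑ p, w p (I.onProj M p).card

/-- the instance and the costs as lines of numbers -/
def costLines : List (List ℕ) :=
  I.lines ++ List.ofFn (fun s => List.ofFn (v s)) ++
    List.ofFn (fun p => (List.range (I.n₁ + 1)).map (w p))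

/-- the input word: numbers in binary, with end-of-number and end-of-line marks -/
def costEncode : List Bool :=
  (I.costLines v w).flatMap (fun line =>
    line.flatMap (fun n => n.bits.flatMap (fun b => [true, b]) ++ [false, false]) ++ [false, true])

end Inst

end Pool.Agent.P.MP_ef40db_lc
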