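import Pool.Agent.Lib.Helper47.Parse

/-! A polynomial time algorithm for the transport problem (minimum weight closure) with binary
capacities: scaling, and shifts of one unit along the levels of the residual graph. -/

namespace Pool.Agent.P.MP_ef40db_lc

open Pool.Agent.Lib.Helper47 Finset

/-- supplies, capacities, allowed pairs -/
abbrev Net : Type := List ℕ × List ℕ × List (List Bool)

/-- a table of numbers -/
abbrev Tab : Type := List (List ℕ)

namespace Net

def nodes (N : Net) : List ℕ := List.range N.1.length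
def u (N : Net) (a : ℕ) : ℕ := N.1.getD a 0
def v (N : Net) (p : ℕ) : ℕ := N.2.1.getD p 0
def E (N : Net) (a p : ℕ) : Bool := (N.2.2.getD a []).getD p false
def ent (f : Tab) (a p : ℕ) : ℕ := (f.getD a []).getD p 0
def row (N : Net) (f : Tab) (a : ℕ) : ℕ := (N.nodes.map fun p => ent f a p).sum
def col (N : Net) (f : Tab) (p : ℕ) : ℕ := (N.nodes.map fun a => ent f a p).sum
def nxt (N : Net) (f : Tab) (D : List ℕ) : List ℕ :=
  N.nodes.filter fun a => N.nodes.any fun p =>
    N.E a p && (Nat.blt (N.col f p) (N.v p) || D.any fun b => Nat.blt 0 (ent f b p))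
def lev (N : Net) (f : Tab) (k : ℕ) : List ℕ := (N.nxt f)^[(N.nodes.take k).length] []
def trip (N : Net) : List (ℕ × ℕ × ℕ) :=
  N.nodes.flatMap fun a => N.nodes.flatMap fun p => N.nodes.map fun b => (a, p, b)
def ok (N : Net) (f : Tab) (D : List ℕ) (t : ℕ × ℕ × ℕ) : Bool :=
  Nat.blt (N.row f t.1) (N.u t.1) && (N.E t.1 t.2.1 &&
    (Nat.blt (N.col f t.2.1) (N.v t.2.1) || (D.contains t.2.2 && Nat.blt 0 (ent f t.2.2 t.2.1))))
def upd (N : Net) (f : Tab) (t : ℕ × ℕ × ℕ) : Tab :=
  N.nodes.map fun a => N.nodes.map fun p => min (N.u a)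
    (ent f a p + (a == t.1 && p == t.2.1).toNat -
      (!Nat.blt (N.col f t.2.1) (N.v t.2.1) && (a == t.2.2 && p == t.2.1)).toNat)
def step (N : Net) (f : Tab) : Tab :=
  ((N.nodes.find? fun k => N.trip.any (fun t => N.ok f (N.lev f k) t)).bind
    fun k => N.trip.find? (fun t => N.ok f (N.lev f k) t)).elim f (fun t => N.upd f t)
def dbl (N : Net) (f : Tab) : Tab :=
  N.nodes.map fun a => N.nodes.map fun p => min (N.u a) (2 * ent f a p)
def rounds (N : Net) : List ℕ := (0 :: N.nodes).flatMap fun _ => 0 :: (N.nodes ++ N.nodes)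
def phase (N : Net) (f : Tab) : Tab := N.step^[N.rounds.length] (N.dbl f)
def scale (N : Net) (d : ℕ) : Net := (N.1.map (· / d), N.2.1.map (· / d), N.2.2)
def bitl (N : Net) : List Bool := (N.1 ++ N.2.1).flatMap Nat.bits
def pw (N : Net) (j : ℕ) : ℕ := 2 ^ (N.bitl.take j).length
def flow (N : Net) : Tab :=
  (List.range N.bitl.length).reverse.foldl (fun f j => (N.scale (N.pw j)).phase f) []
/-- the output: the supply nodes that cannot reach a free capacity -/
def sol (N : Net) : List ℕ :=
  N.nodes.filter fun a => !(N.lev N.flow N.1.length).contains a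

/-! ### Running time -/

section pt
variable {α : Type} [Enc α] {N : α → Net} {f : α → Tab} {a p k : α → ℕ} {D : α → List ℕ}
  {t : α → ℕ × ℕ × ℕ}

@[fun_prop] theorem pt_nodes (hN : PT N) : PT (fun x => (N x).nodes) :=
  PT.rangeLength (by fun_prop)
@[fun_prop] theorem pt_u (hN : PT N) (ha : PT a) : PT (fun x => (N x).u (a x)) := by
  unfold u; fun_prop
@[fun_prop] theorem pt_v (hN : PT N) (ha : PT a) : PT (fun x => (N x).v (a x)) := by
  unfold v; fun_prop
@[fun_prop] theorem pt_E (hN : PT N) (ha : PT a) (hp : PT p) :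
    PT (fun x => (N x).E (a x) (p x)) := by
  unfold E; fun_prop
@[fun_prop] theorem pt_ent (hf : PT f) (ha : PT a) (hp : PT p) :
    PT (fun x => ent (f x) (a x) (p x)) := by
  unfold ent; fun_prop
@[fun_prop] theorem pt_row (hN : PT N) (hf : PT f) (ha : PT a) :
    PT (fun x => (N x).row (f x) (a x)) := by
  unfold row; fun_prop
@[fun_prop] theorem pt_col (hN : PT N) (hf : PT f) (ha : PT a) :
    PT (fun x => (N x).col (f x) (a x)) := by
  unfold col; fun_prop
@[fun_prop] theorem pt_nxt (hN : PT N) (hf : PT f) (hD : PT D) :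
    PT (fun x => (N x).nxt (f x) (D x)) := by
  unfold nxt; fun_prop
@[fun_prop] theorem pt_lev (hN : PT N) (hf : PT f) (hk : PT k) :
    PT (fun x => (N x).lev (f x) (k x)) :=
  PT.iterate_inv (f := fun x D => (N x).nxt (f x) D) (by fun_prop) (by fun_prop) (PT.const _)
    (fun x D => D.Sublist (N x).nodes) (fun _ => List.nil_sublist _)
    (fun _ _ _ => List.filter_sublist) (fun x => size (N x).nodes) (pt_nodes hN).size_le
    (fun _ _ h => size_sublist h)
@[fun_prop] theorem pt_trip (hN : PT N) : PT (fun x => (N x).trip) := by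
  unfold trip; fun_prop
@[fun_prop] theorem pt_ok (hN : PT N) (hf : PT f) (hD : PT D) (ht : PT t) :
    PT (fun x => (N x).ok (f x) (D x) (t x)) := by
  unfold ok; fun_prop
@[fun_prop] theorem pt_upd (hN : PT N) (hf : PT f) (ht : PT t) :
    PT (fun x => (N x).upd (f x) (t x)) := by
  unfold upd; fun_prop
@[fun_prop] theorem pt_step (hN : PT N) (hf : PT f) : PT (fun x => (N x).step (f x)) := by
  unfold step; fun_prop
@[fun_prop] theorem pt_dbl (hN : PT N) (hf : PT f) : PT (fun x => (N x).dbl (f x)) := by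
  unfold dbl; fun_prop
@[fun_prop] theorem pt_scale (hN : PT N) (hk : PT k) : PT (fun x => (N x).scale (k x)) := by
  unfold scale; fun_prop
@[fun_prop] theorem pt_bitl (hN : PT N) : PT (fun x => (N x).bitl) := by
  unfold bitl; fun_prop
@[fun_prop] theorem pt_pw (hN : PT N) (hk : PT k) : PT (fun x => (N x).pw (k x)) := by
  have h : PT (fun x => (N x).bitl.take (k x)) := by fun_prop
  exact PT.pow (PT.const 2) (PT.length h) (h.size_le.mono fun _ => (length_lt_size _).le)

theorem size_getD (l : List ℕ) (a : ℕ) : size (l.getD a 0) ≤ size l := by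
  rw [List.getD_eq_getElem?_getD]
  cases h : l[a]? with
  | none => exact size_pos l
  | some x => exact (size_lt_of_mem (List.mem_of_getElem? h)).le

/-- small tables -/
def Sm (N : Net) (f : Tab) : Prop :=
  f.length ≤ N.1.length ∧ ∀ r ∈ f, r.length ≤ N.1.length ∧ ∀ x ∈ r, ∃ a, x ≤ N.u a

theorem sm_tab (N : Net) (g : ℕ → ℕ → ℕ) :
    N.Sm (N.nodes.map fun a => N.nodes.map fun p => min (N.u a) (g a p)) := by
  refine ⟨by simp [nodes], fun r hr => ?_⟩
  obtain ⟨a, -, rfl⟩ := List.mem_map.1 hr
  refine ⟨by simp [nodes], fun x hx => ?_⟩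
  obtain ⟨p, -, rfl⟩ := List.mem_map.1 hx
  exact ⟨a, min_le_left _ _⟩

theorem sm_step {N : Net} {f : Tab} (h : N.Sm f) : N.Sm (N.step f) := by
  unfold step
  cases (N.nodes.find? fun k => N.trip.any (fun t => N.ok f (N.lev f k) t)).bind
    fun k => N.trip.find? (fun t => N.ok f (N.lev f k) t)
  · exact h
  · exact sm_tab N _

theorem sm_phase (N : Net) (f : Tab) : N.Sm (N.phase f) := by
  unfold phase
  induction N.rounds.length with
  | zero => exact sm_tab N _
  | succ n ih => rw [Function.iterate_succ_apply']; exact sm_step ih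

theorem sm_size {N : Net} {f : Tab} (h : N.Sm f) :
    size f ≤ size N * (size N * (4 * size N + 1) + 1 + 1) + 1 := by
  have h1 := length_lt_size N.1
  have h2 := size_prod N
  refine (size_list_le (B := size N * (4 * size N + 1) + 1) fun r hr => ?_).trans
    (Nat.add_le_add_right (Nat.mul_le_mul_right _ (by have := h.1; omega)) 1)
  refine (size_list_le (B := 4 * size N) fun x hx => ?_).trans
    (Nat.add_le_add_right (Nat.mul_le_mul_right _ (by have := (h.2 r hr).1; omega)) 1)
  obtain ⟨a, ha⟩ := (h.2 r hr).2 x hx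
  have h3 := size_nat_mono ha
  have h4 := size_getD N.1 a
  unfold u at h3
  omega

theorem ps_bound (hN : PT N) :
    PS (fun x => size (N x) * (size (N x) * (4 * size (N x) + 1) + 1 + 1) + 1) :=
  (hN.size_le.mul (((hN.size_le.mul (((PB.const 4).mul hN.size_le).add (PB.const 1))).add
    (PB.const 1)).add (PB.const 1))).add (PB.const 1)

@[fun_prop] theorem pt_phase (hN : PT N) (hf : PT f) : PT (fun x => (N x).phase (f x)) :=
  PT.iterate_inv (f := fun x g => (N x).step g) (by fun_prop) (by unfold rounds; fun_prop)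
    (by fun_prop) (fun x g => (N x).Sm g) (fun _ => sm_tab _ _) (fun _ _ h => sm_step h) _
    (ps_bound hN) (fun _ _ h => sm_size h)

theorem u_scale (N : Net) (d a : ℕ) : (N.scale d).u a = N.u a / d := by
  simp only [u, scale, List.getD_eq_getElem?_getD, List.getElem?_map]
  cases N.1[a]? <;> simp

theorem v_scale (N : Net) (d a : ℕ) : (N.scale d).v a = N.v a / d := by
  simp only [v, scale, List.getD_eq_getElem?_getD, List.getElem?_map]
  cases N.2.1[a]? <;> simp

theorem len_scale (N : Net) (d : ℕ) : (N.scale d).1.length = N.1.length := by simp [scale]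

@[fun_prop] theorem pt_flow (hN : PT N) : PT (fun x => (N x).flow) := by
  refine PT.foldl_inv (f := fun x g j => ((N x).scale ((N x).pw j)).phase g) (by fun_prop)
    (PT.reverse (PT.rangeLength (pt_bitl hN))) (PT.const _) (fun x g => (N x).Sm g)
    (fun _ => ⟨Nat.zero_le _, by simp⟩) (fun x g j _ _ => ?_) _ (ps_bound hN) (fun _ _ h => sm_size h)
  obtain ⟨h1, h2⟩ := sm_phase ((N x).scale ((N x).pw j)) g
  rw [len_scale] at h1 h2
  refine ⟨h1, fun r hr => ⟨(h2 r hr).1, fun y hy => ?_⟩⟩
  obtain ⟨a, ha⟩ := (h2 r hr).2 y hy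
  exact ⟨a, ha.trans (by rw [u_scale]; exact Nat.div_le_self _ _)⟩

@[fun_prop] theorem pt_sol (hN : PT N) : PT (fun x => (N x).sol) := by
  unfold sol; fun_prop

end pt

end Net

end Pool.Agent.P.MP_ef40db_lc
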