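import Pool.Agent.P.MP_ef40db_lc.Math

/-! The threshold vectors of the solutions form a meet semilattice, in which the set of students
of a project depends on the threshold of this project only. -/

namespace Pool.Agent.P.MP_ef40db_lc

open Finset

namespace Inst

variable (I : Inst)

/-- number of students of a project -/
def cp (t : Fin I.n₂ → ℕ) (p : Fin I.n₂) : ℕ := (I.onProj (I.asg t) p).card

/-- number of students of a lecturer -/
def cl (t : Fin I.n₂ → ℕ) (l : Fin I.n₃) : ℕ := (I.onLec (I.asg t) l).card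

/-- threshold vectors of solutions -/
def Z (t : Fin I.n₂ → ℕ) : Prop := (∀ p, t p ≤ I.n₁) ∧ I.Check t

/-- project thresholds with lecturer thresholds -/
structure Clr (t : Fin I.n₂ → ℕ) (θ : Fin I.n₃ → ℕ) : Prop where
  c : ∀ p, I.cp t p ≤ I.c p
  d : ∀ l, I.cl t l ≤ I.d l
  q : ∀ p, I.q p ≤ I.cp t p
  le : ∀ p, t p ≤ θ (I.lec p)
  top : ∀ l, θ l ≤ I.n₁
  fp : ∀ p, t p < θ (I.lec p) → I.c p ≤ I.cp t p
  fl : ∀ l, θ l < I.n₁ → I.d l ≤ I.cl t l

variable {I} {t t' w z : Fin I.n₂ → ℕ} {θ θ' : Fin I.n₃ → ℕ} {p : Fin I.n₂} {l : Fin I.n₃}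

theorem proj_sub (h : ∀ p, t' p ≤ t p) (e : t p ≤ t' p) :
    I.onProj (I.asg t) p ⊆ I.onProj (I.asg t') p := fun _ hs =>
  mem_onProj.2 (asg_mono h (mem_onProj.1 hs) ((asg_lt (mem_onProj.1 hs)).trans_le e))

theorem cp_le (h : ∀ p, t' p ≤ t p) (e : t p ≤ t' p) : I.cp t p ≤ I.cp t' p :=
  card_le_card (proj_sub h e)

theorem cl_eq (t : Fin I.n₂ → ℕ) (l : Fin I.n₃) :
    I.cl t l = ∑ p ∈ univ.filter (fun p => I.lec p = l), I.cp t p :=
  card_onLec (fun _ _ _ => asg_fun) l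

theorem cl_le (h : ∀ p, I.lec p = l → I.cp t p ≤ I.cp t' p) : I.cl t l ≤ I.cl t' l := by
  rw [cl_eq, cl_eq]
  exact sum_le_sum fun p hp => h p (mem_filter.1 hp).2

theorem cp_eq (h : ∀ p, I.lec p = l → I.cp t p ≤ I.cp t' p) (e : I.cl t l = I.cl t' l)
    (hp : I.lec p = l) : I.cp t p = I.cp t' p := by
  rw [cl_eq, cl_eq] at e
  exact (sum_eq_sum_iff_of_le fun p hp => h p (mem_filter.1 hp).2).1 e p
    (mem_filter.2 ⟨mem_univ _, hp⟩)

theorem cnt (h : ∀ p, t' p ≤ t p) (hl : ∀ l, I.cl t l ≤ I.cl t' l) (l : Fin I.n₃) :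
    I.cl t l = I.cl t' l := by
  have hsum : ∑ l, I.cl t' l ≤ ∑ l, I.cl t l := by
    unfold cl
    rw [sum_card_onLec (fun _ _ _ => asg_fun), sum_card_onLec (fun _ _ _ => asg_fun)]
    refine card_le_card fun s hs => ?_
    simp only [mem_filter, mem_univ, true_and] at hs ⊢
    obtain ⟨p, hp⟩ := hs
    obtain ⟨p', h, -⟩ := asg_best (asg_pref hp) ((asg_lt hp).trans_le (h p))
    exact ⟨p', h⟩
  exact (sum_eq_sum_iff_of_le fun l _ => hl l).1
    (le_antisymm (sum_le_sum fun l _ => hl l) hsum) l (mem_univ _)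

theorem z_iff : I.Z t ↔ (∀ p, t p ≤ I.n₁) ∧ (∀ p, I.cp t p ≤ I.c p) ∧ (∀ l, I.cl t l ≤ I.d l) ∧
    (∀ p, I.q p ≤ I.cp t p) ∧ ∀ p, t p = I.n₁ ∨ I.c p ≤ I.cp t p ∨
      (I.d (I.lec p) ≤ I.cl t (I.lec p) ∧ ∀ p', I.lec p' = I.lec p → t p' ≤ t p) := by
  constructor
  · rintro ⟨h0, h⟩
    exact ⟨h0, h.sound.1.2.2.1, h.sound.1.2.2.2, h.sound.2.2, h.2.2⟩
  · rintro ⟨h0, h1, h2, h3, h4⟩
    refine ⟨h0, fun p => not_lt.2 (h1 p), ?_, h4⟩
    rintro l (h | ⟨-, p, -, h⟩)
    · exact not_lt.2 (h2 l) h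
    · exact not_lt.2 (h3 p) h

theorem Z.clr (h : I.Z t) : ∃ θ, I.Clr t θ := by
  obtain ⟨h0, h1, h2, h3, h4⟩ := z_iff.1 h
  have hs : ∀ l, (univ.filter fun p => I.lec p = l).sup t ≤ I.n₁ :=
    fun l => Finset.sup_le fun p _ => h0 p
  refine ⟨fun l => if I.d l ≤ I.cl t l then (univ.filter fun p => I.lec p = l).sup t else I.n₁,
    h1, h2, h3, fun p => ?_, fun l => ?_, fun p e => ?_, fun l e => ?_⟩
  · split_ifs
    · exact le_sup (f := t) (by simp)
    · exact h0 p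
  · split_ifs
    · exact hs l
    · exact le_rfl
  · have := hs (I.lec p)
    rcases h4 p with g | g | ⟨g, g'⟩
    · split_ifs at e <;> omega
    · exact g
    · rw [if_pos g] at e
      exact absurd (Finset.sup_le fun p' hp' => g' p' (mem_filter.1 hp').2) (not_le.2 e)
  · by_contra g
    rw [if_neg g] at e
    omega

theorem Clr.toZ (h : I.Clr t θ) : I.Z t := by
  refine z_iff.2 ⟨fun p => (h.le p).trans (h.top _), h.c, h.d, h.q, fun p => ?_⟩
  rcases (h.le p).eq_or_lt with e | e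
  · rcases (h.top (I.lec p)).eq_or_lt with e' | e'
    · exact Or.inl (e.trans e')
    · exact Or.inr (Or.inr ⟨h.fl _ e', fun p' hp' => e ▸ hp' ▸ h.le p'⟩)
  · exact Or.inr (Or.inl (h.fp p e))

theorem Clr.cp_meet (h : I.Clr t θ) (h' : I.Clr t' θ') (hw : ∀ p, w p = min (t p) (t' p))
    (e : θ l ≤ θ' l) (p : Fin I.n₂) (hp : I.lec p = l) : I.cp t p ≤ I.cp w p := by
  subst hp
  rcases le_or_gt (t p) (t' p) with g | g
  · exact cp_le (fun p => hw p ▸ min_le_left _ _) (by rw [hw, min_eq_left g])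
  · exact (h.c p).trans ((h'.fp p (g.trans_le ((h.le p).trans e))).trans
      (cp_le (fun p => hw p ▸ min_le_right _ _) (by rw [hw, min_eq_right g.le])))

theorem Clr.cl_meet (h : I.Clr t θ) (h' : I.Clr t' θ') (hw : ∀ p, w p = min (t p) (t' p))
    (l : Fin I.n₃) : I.cl t l = I.cl w l := by
  refine cnt (fun p => hw p ▸ min_le_left _ _) (fun l => ?_) l
  rcases le_or_gt (θ l) (θ' l) with g | g
  · exact cl_le (h.cp_meet h' hw g)
  · exact (h.d l).trans ((h'.fl l (g.trans_le (h.top l))).trans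
      (cl_le (h'.cp_meet h (fun p => (hw p).trans (min_comm _ _)) g.le)))

theorem Clr.cp_meet_eq (h : I.Clr t θ) (h' : I.Clr t' θ') (hw : ∀ p, w p = min (t p) (t' p))
    (e : θ (I.lec p) ≤ θ' (I.lec p)) : I.cp t p = I.cp w p :=
  cp_eq (h.cp_meet h' hw e) (h.cl_meet h' hw _) rfl

theorem Clr.full_meet (h : I.Clr t θ) (h' : I.Clr t' θ') (hw : ∀ p, w p = min (t p) (t' p))
    (e : θ (I.lec p) ≤ θ' (I.lec p)) (g : w p < θ (I.lec p)) : I.c p ≤ I.cp w p := by
  rcases le_total (t p) (t' p) with g' | g'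
  · rw [hw, min_eq_left g'] at g
    exact (h.fp p g).trans (h.cp_meet_eq h' hw e).le
  · rw [hw, min_eq_right g'] at g
    exact (h'.fp p (g.trans_le e)).trans
      (cp_le (fun p => hw p ▸ min_le_right _ _) (by rw [hw, min_eq_right g']))

theorem Z.meet (h : I.Z t) (h' : I.Z t') : I.Z fun p => min (t p) (t' p) := by
  obtain ⟨θ, h⟩ := h.clr
  obtain ⟨θ', h'⟩ := h'.clr
  have hw : ∀ p, (fun p => min (t p) (t' p)) p = min (t p) (t' p) := fun _ => rfl
  have hw' : ∀ p, (fun p => min (t p) (t' p)) p = min (t' p) (t p) := fun _ => min_comm _ _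
  refine Clr.toZ (θ := fun l => min (θ l) (θ' l)) ⟨fun p => ?_, fun l => ?_, fun p => ?_,
    fun p => min_le_min (h.le p) (h'.le p), fun l => (min_le_left _ _).trans (h.top l),
    fun p e => ?_, fun l e => ?_⟩
  · rcases le_total (θ (I.lec p)) (θ' (I.lec p)) with g | g
    · exact h.cp_meet_eq h' hw g ▸ h.c p
    · exact h'.cp_meet_eq h hw' g ▸ h'.c p
  · exact h.cl_meet h' hw l ▸ h.d l
  · rcases le_total (θ (I.lec p)) (θ' (I.lec p)) with g | g
    · exact h.cp_meet_eq h' hw g ▸ h.q p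
    · exact h'.cp_meet_eq h hw' g ▸ h'.q p
  · rcases le_total (θ (I.lec p)) (θ' (I.lec p)) with g | g
    · exact h.full_meet h' hw g (e.trans_le (min_le_left _ _))
    · exact h'.full_meet h hw' g (e.trans_le (min_le_right _ _))
  · rcases min_lt_iff.1 e with g | g
    · exact h.cl_meet h' hw l ▸ h.fl l g
    · exact h'.cl_meet h hw' l ▸ h'.fl l g

theorem Clr.proj_eq (h : I.Clr t θ) (h' : I.Clr t' θ') (e : t p = t' p)
    (g : θ (I.lec p) ≤ θ' (I.lec p)) : I.onProj (I.asg t) p = I.onProj (I.asg t') p := by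
  have hw : ∀ p, (fun p => min (t p) (t' p)) p = min (t p) (t' p) := fun _ => rfl
  have hw' : ∀ p, (fun p => min (t p) (t' p)) p = min (t' p) (t p) := fun _ => min_comm _ _
  have e1 := h.cp_meet_eq h' hw g
  have e2 : I.cp (fun p => min (t p) (t' p)) p ≤ I.cp t' p := by
    rcases g.eq_or_lt with g' | g'
    · exact (h'.cp_meet_eq h hw' g'.ge).ge
    · exact e1 ▸ (h.c p).trans (h'.fp p (e ▸ (h.le p).trans_lt g'))
  rw [eq_of_subset_of_card_le (proj_sub (fun p => min_le_left (t p) (t' p)) (by simp [e])) e1.ge,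
    eq_of_subset_of_card_le (proj_sub (fun p => min_le_right (t p) (t' p)) (by simp [e])) e2]

/-- the students of a project are determined by its threshold -/
theorem Z.proj_eq (h : I.Z t) (h' : I.Z t') (e : t p = t' p) :
    I.onProj (I.asg t) p = I.onProj (I.asg t') p := by
  obtain ⟨θ, h⟩ := h.clr
  obtain ⟨θ', h'⟩ := h'.clr
  rcases le_total (θ (I.lec p)) (θ' (I.lec p)) with g | g
  · exact h.proj_eq h' e g
  · exact (h'.proj_eq h e.symm g).symm

theorem Z.fold (L : List (Fin I.n₂ → ℕ)) (hL : ∀ x ∈ L, I.Z x) : ∀ {t : Fin I.n₂ → ℕ}, I.Z t →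
    I.Z fun p => (L.map fun x => x p).foldl min (t p) := by
  induction L with
  | nil => exact fun h => h
  | cons x L ih =>
    exact fun h => ih (fun y hy => hL y (List.mem_cons_of_mem _ hy))
      (h.meet (hL x List.mem_cons_self))

/-- every solution comes from thresholds -/
theorem exists_z {N : Finset (Fin I.n₁ × Fin I.n₂)} (hN : I.IsSolution N) :
    ∃ t, I.Z t ∧ I.asg t = N := by
  let t : Fin I.n₂ → ℕ := fun p =>
    if I.c p ≤ (I.onProj N p).card then (I.onProj N p).sup fun s => I.rk (I.lec p) s + 1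
    else if I.d (I.lec p) ≤ (I.onLec N (I.lec p)).card then
      (I.onLec N (I.lec p)).sup fun s => I.rk (I.lec p) s + 1
    else I.n₁
  have hlt : ∀ l, ∀ s ∈ I.onLec N l, I.rk l s < I.n₁ := fun l s hs => by
    obtain ⟨p, rfl, h⟩ := mem_onLec.1 hs
    exact rk_lt (mem_rank_of (hN.1.1 s p h))
  have ht : ∀ s p, (s, p) ∈ N → I.rk (I.lec p) s < t p := fun s p h => by
    simp only [t]
    split_ifs
    · exact le_sup (f := fun s => I.rk (I.lec p) s + 1) (mem_onProj.2 h)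
    · exact le_sup (f := fun s => I.rk (I.lec p) s + 1) (mem_onLec.2 ⟨p, rfl, h⟩)
    · exact hlt _ s (mem_onLec.2 ⟨p, rfl, h⟩)
  have sub : ∀ s p, (s, p) ∈ I.asg t → (s, p) ∈ N := fun s p h => by
    by_contra hn
    refine nonblock hN ht h hn ?_
    have h1 := asg_lt h
    have h2 := hN.1.2.2.1 p
    have h3 := hN.1.2.2.2 (I.lec p)
    have h4 : ∀ w, I.rk (I.lec p) s < I.rk (I.lec p) w + 1 →
        s = w ∨ I.rk (I.lec p) s < I.rk (I.lec p) w := fun w e =>
      (Nat.lt_succ_iff.1 e).eq_or_lt.imp_left (rk_inj (mem_rank_of (asg_pref h)))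
    simp only [t] at h1
    split_ifs at h1 with g g'
    · obtain ⟨w, hw, e⟩ := Finset.lt_sup_iff.1 h1
      refine Or.inr (Or.inr ⟨le_antisymm h2 g, prefersToWorst_iff.2 ⟨w, hw, ?_⟩⟩)
      exact (h4 w e).resolve_left fun e' => hn (e' ▸ mem_onProj.1 hw)
    · obtain ⟨w, hw, e⟩ := Finset.lt_sup_iff.1 h1
      exact Or.inr (Or.inl ⟨not_le.1 g, le_antisymm h3 g',
        (h4 w e).imp (fun e' : s = w => e' ▸ hw) fun e' => prefersToWorst_iff.2 ⟨w, hw, e'⟩⟩)
    · exact Or.inl ⟨not_le.1 g, not_le.1 g'⟩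
  have e : I.asg t = N := by
    ext ⟨s, p⟩
    refine ⟨sub s p, fun h => ?_⟩
    obtain ⟨p', h', -⟩ := asg_best (hN.1.1 s p h) (ht s p h)
    rwa [hN.1.2.1 s p p' h (sub s p' h')]
  refine ⟨t, z_iff.2 ?_, e⟩
  simp only [cp, cl, e]
  refine ⟨fun p => ?_, hN.1.2.2.1, hN.1.2.2.2, hN.2.2, fun p => ?_⟩
  · simp only [t]
    split_ifs
    · exact Finset.sup_le fun s hs => hlt _ s (onProj_subset _ _ hs)
    · exact Finset.sup_le fun s hs => hlt _ s hs
    · exact le_rfl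
  · by_cases g : I.c p ≤ (I.onProj N p).card
    · exact Or.inr (Or.inl g)
    by_cases g' : I.d (I.lec p) ≤ (I.onLec N (I.lec p)).card
    · refine Or.inr (Or.inr ⟨g', fun p' hp' => ?_⟩)
      simp only [t, hp', if_neg g, if_pos g']
      split_ifs
      · exact Finset.sup_mono (hp' ▸ onProj_subset _ _)
      · exact le_rfl
    · exact Or.inl (by simp only [t, if_neg g, if_neg g'])

/-! ### The greatest threshold vector below a given vector -/

variable (I) in
/-- lecturer whose largest thresholds have to decrease -/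
def Low (t : Fin I.n₂ → ℕ) (l : Fin I.n₃) : Prop :=
  I.d l < I.cl t l ∨ ((∀ l', I.cl t l' ≤ I.d l') ∧ ∃ p, I.lec p = l ∧
    (I.cp t p < I.q p ∨ (I.cp t p < I.c p ∧ ∃ p', I.lec p' = l ∧ t p < t p')))

variable (I) in
open Classical in
/-- one round of the descent -/
noncomputable def down (t : Fin I.n₂ → ℕ) (p : Fin I.n₂) : ℕ :=
  if ∃ p', I.Over t p' then (if I.Over t p then t p - 1 else t p)
  else if I.Low t (I.lec p) ∧ ∀ p', I.lec p' = I.lec p → t p' ≤ t p then t p - 1 else t p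

theorem down_le (t : Fin I.n₂ → ℕ) (p : Fin I.n₂) : I.down t p ≤ t p := by
  unfold down
  split_ifs <;> omega

theorem keep_over (hz : I.Z z) (h : ∀ p, z p ≤ t p) (ho : I.Over t p) : z p < t p := by
  by_contra e
  exact not_le.2 ho ((cp_le h (not_lt.1 e)).trans ((z_iff.1 hz).2.1 p))

theorem cp_free (hz : I.Z z) (h : ∀ p, z p ≤ t p) (h0 : ∀ p, t p ≤ I.n₁) (ho : ∀ p, ¬ I.Over t p)
    (e : ¬ I.d l ≤ I.cl z l) (p : Fin I.n₂) (hp : I.lec p = l) : I.cp t p ≤ I.cp z p := by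
  rcases (z_iff.1 hz).2.2.2.2 p with g | g | g
  · exact cp_le h (g ▸ h0 p)
  · exact (not_lt.1 (ho p)).trans g
  · exact absurd (hp ▸ g.1) e

theorem cl_same (hz : I.Z z) (h : ∀ p, z p ≤ t p) (h0 : ∀ p, t p ≤ I.n₁) (ho : ∀ p, ¬ I.Over t p)
    (hd : ∀ l, I.cl t l ≤ I.d l) (l : Fin I.n₃) : I.cl t l = I.cl z l := by
  refine cnt h (fun l => ?_) l
  by_cases e : I.d l ≤ I.cl z l
  · exact (hd l).trans e
  · exact cl_le (cp_free hz h h0 ho e)

theorem keep_low (hz : I.Z z) (h : ∀ p, z p ≤ t p) (h0 : ∀ p, t p ≤ I.n₁) (ho : ∀ p, ¬ I.Over t p)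
    (hl : I.Low t (I.lec p)) (hm : ∀ p', I.lec p' = I.lec p → t p' ≤ t p) : z p < t p := by
  by_contra e
  rw [not_lt] at e
  obtain ⟨-, -, z2, z3, z4⟩ := z_iff.1 hz
  have full : ∀ p', I.lec p' = I.lec p → z p' < t p → I.c p' ≤ I.cp z p' := fun p' hp' g => by
    rcases z4 p' with g' | g' | g'
    · have := h0 p; omega
    · exact g'
    · have := g'.2 p hp'.symm; omega
  have le : ∀ p', I.lec p' = I.lec p → I.cp t p' ≤ I.cp z p' := fun p' hp' => by
    rcases le_or_gt (t p') (z p') with g | g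
    · exact cp_le h g
    · exact (not_lt.1 (ho p')).trans (full p' hp' (g.trans_le (hm p' hp')))
  rcases hl with g | ⟨hd, p', hp', g⟩
  · exact not_le.2 g ((cl_le le).trans (z2 _))
  · have e' := cp_eq le (cl_same hz h h0 ho hd _) hp'
    rcases g with g | ⟨g, p'', g1, g2⟩
    · have := z3 p'; omega
    · have := full p' hp' ((h p').trans_lt (g2.trans_le (hm p'' g1))); omega

theorem le_down (hz : I.Z z) (h : ∀ p, z p ≤ t p) (h0 : ∀ p, t p ≤ I.n₁) (p : Fin I.n₂) :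
    z p ≤ I.down t p := by
  unfold down
  split_ifs with h1 h2 h3
  · exact Nat.le_sub_one_of_lt (keep_over hz h h2)
  · exact h p
  · exact Nat.le_sub_one_of_lt (keep_low hz h h0 (fun p hp => h1 ⟨p, hp⟩) h3.1 h3.2)
  · exact h p

theorem z_of_fix (hz : I.Z z) (h : ∀ p, z p ≤ t p) (h0 : ∀ p, t p ≤ I.n₁) (ho : ∀ p, ¬ I.Over t p)
    (hl : ∀ l, ¬ I.Low t l) : I.Z t := by
  have hd : ∀ l, I.cl t l ≤ I.d l := fun l => not_lt.1 fun e => hl l (Or.inl e)
  refine z_iff.2 ⟨h0, fun p => not_lt.1 (ho p), hd,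
    fun p => not_lt.1 fun e => hl _ (Or.inr ⟨hd, p, rfl, Or.inl e⟩), fun p => ?_⟩
  refine (h0 p).eq_or_lt.imp_right fun g => (le_or_gt (I.c p) (I.cp t p)).imp_right fun g' =>
    ⟨?_, fun p' hp' => not_lt.1 fun e => hl _ (Or.inr ⟨hd, p, rfl, Or.inr ⟨g', p', hp', e⟩⟩)⟩
  have e := cl_same hz h h0 ho hd (I.lec p)
  rw [e]
  by_contra e'
  have e'' := cp_eq (cp_free hz h h0 ho e') e rfl
  rcases (z_iff.1 hz).2.2.2.2 p with g'' | g'' | g''
  · have := h p; omega
  · omega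
  · exact e' g''.1

theorem down_lt (hz : I.Z z) (h : ∀ p, z p ≤ t p) (h0 : ∀ p, t p ≤ I.n₁) :
    (I.Z t ∧ I.down t = t) ∨ ∑ p, I.down t p < ∑ p, t p := by
  by_cases h1 : ∃ p', I.Over t p'
  · obtain ⟨p, hp⟩ := h1
    refine Or.inr (sum_lt_sum (fun p _ => down_le t p) ⟨p, mem_univ _, ?_⟩)
    have := keep_over hz h hp
    rw [down, if_pos ⟨p, hp⟩, if_pos hp]
    omega
  · have ho : ∀ p, ¬ I.Over t p := fun p hp => h1 ⟨p, hp⟩
    by_cases h2 : ∃ l, I.Low t l
    · obtain ⟨l, hl⟩ := h2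
      obtain ⟨p₀, hp₀⟩ := I.lec_surj l
      obtain ⟨p, hp, hm⟩ := (univ.filter fun p => I.lec p = l).exists_max_image t ⟨p₀, by simp [hp₀]⟩
      obtain rfl := (mem_filter.1 hp).2
      have hm' : ∀ p', I.lec p' = I.lec p → t p' ≤ t p := fun p' e => hm p' (by simp [e])
      refine Or.inr (sum_lt_sum (fun p _ => down_le t p) ⟨p, mem_univ _, ?_⟩)
      have := keep_low hz h h0 ho hl hm'
      rw [down, if_neg h1, if_pos ⟨hl, hm'⟩]
      omega
    · refine Or.inl ⟨z_of_fix hz h h0 ho fun l hl => h2 ⟨l, hl⟩, funext fun p => ?_⟩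
      rw [down, if_neg h1, if_neg fun e => h2 ⟨_, e.1⟩]

theorem iter_le (k : ℕ) (t : Fin I.n₂ → ℕ) (p : Fin I.n₂) : I.down^[k] t p ≤ t p := by
  induction k with
  | zero => exact le_rfl
  | succ k ih => rw [Function.iterate_succ_apply']; exact (down_le _ p).trans ih

theorem le_iter (hz : I.Z z) (h : ∀ p, z p ≤ t p) (h0 : ∀ p, t p ≤ I.n₁) (k : ℕ) :
    ∀ p, z p ≤ I.down^[k] t p := by
  induction k with
  | zero => exact h
  | succ k ih =>
    rw [Function.iterate_succ_apply']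
    exact le_down hz ih fun p => (iter_le k t p).trans (h0 p)

theorem z_iter (hz : I.Z z) (h : ∀ p, z p ≤ t p) (h0 : ∀ p, t p ≤ I.n₁) {k : ℕ}
    (hk : I.n₁ * I.n₂ < k) : I.Z (I.down^[k] t) := by
  have key : ∀ i, (I.Z (I.down^[i] t) ∧ I.down (I.down^[i] t) = I.down^[i] t) ∨
      ∑ p, I.down^[i + 1] t p + i < I.n₁ * I.n₂ := by
    intro i
    have h1 := down_lt hz (le_iter hz h h0 i) fun p => (iter_le i t p).trans (h0 p)
    rw [Function.iterate_succ_apply']
    induction i with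
    | zero =>
      have : ∑ p, t p ≤ I.n₁ * I.n₂ := (sum_le_sum fun p _ => h0 p).trans (by simp [mul_comm])
      exact h1.imp_right fun e => lt_of_lt_of_le e this
    | succ i ih =>
      rcases ih (down_lt hz (le_iter hz h h0 i) fun p => (iter_le i t p).trans (h0 p)) with g | g
      · rw [Function.iterate_succ_apply', g.2]; exact Or.inl g
      · refine h1.imp_right fun e => ?_
        rw [Function.iterate_succ_apply'] at e ⊢
        omega
  exact ((key k).resolve_right (by omega)).1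

end Inst

end Pool.Agent.P.MP_ef40db_lc
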