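import Pool.Agent.P.MP_ef40db_lc.Raw
import Pool.Agent.P.MP_ef40db_lc.OptFlow

/-! The minimum cost algorithm on raw data, and its polynomial running time. -/

namespace Pool.Agent.P.MP_ef40db_lc

open Pool.Agent.Lib.Helper47

namespace Raw

def low (R : Raw) (t : List ℕ) (l : ℕ) : Bool :=
  Nat.blt (R.d l) (R.onLec t l).length ||
    (R.lecs.all (fun l' => Nat.ble (R.onLec t l').length (R.d l')) &&
      R.projs.any fun p => R.lec p == l && (Nat.blt (R.onProj t p).length (R.q p) ||
        (Nat.blt (R.onProj t p).length (R.c p) &&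
          R.projs.any fun p' => R.lec p' == l && Nat.blt (t.getD p 0) (t.getD p' 0))))
def down (R : Raw) (t : List ℕ) : List ℕ :=
  R.projs.map fun p =>
    bif R.projs.any (fun p' => R.ovr t p') then
      (bif R.ovr t p then t.getD p 0 - 1 else t.getD p 0)
    else bif R.low t (R.lec p) &&
        R.projs.all (fun p' => R.lec p' != R.lec p || Nat.ble (t.getD p' 0) (t.getD p 0)) then
      t.getD p 0 - 1
    else t.getD p 0
def desc (R : Raw) (t : List ℕ) : List ℕ := R.down^[R.rounds.length] t
def tp (R : Raw) : List ℕ := R.desc R.start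
def T (R : Raw) (e : ℕ × ℕ) : List ℕ :=
  R.desc (R.projs.map fun p => bif p == e.1 then e.2 else R.1.length)
def evs (R : Raw) : List (ℕ × ℕ) :=
  (R.projs.flatMap fun p => R.studs.map fun i => (p, i)).filter fun e =>
    Nat.blt e.2 (R.tp.getD e.1 0) && R.check (R.T e)
def cost (R : Raw) (V W : Tab) (t : List ℕ) (p : ℕ) : ℕ :=
  ((R.onProj t p).map fun s => Net.ent V s p).sum + Net.ent W p (R.onProj t p).length
def net (R : Raw) (V W : Tab) : Net :=
  (R.evs.map fun e => R.cost V W (R.T (e.1, e.2 + 1)) e.1,
    R.evs.map fun e => R.cost V W (R.T e) e.1,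
    R.evs.map fun e => R.evs.map fun e' => Nat.ble ((R.T e).getD e'.1 0) e'.2)
def best (R : Raw) (V W : Tab) : List ℕ :=
  R.projs.map fun p => ((R.net V W).sol.map fun a =>
    (R.T (R.evs.getD a (0, 0))).getD p 0).foldl min (R.tp.getD p 0)
def out (R : Raw) (V W : Tab) : List Bool :=
  bif R.check R.tp then true :: R.table (R.best V W) else [false]
/-- split the lines of the input -/
def split (L : Tab) : Raw × Tab × Tab :=
  (((ofLines L).1, (ofLines L).2.1, (ofLines L).2.2.take ((L.headD []).getD 2 0)),
    ((ofLines L).2.2.drop ((L.headD []).getD 2 0)).take ((L.headD []).getD 0 0),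
    ((ofLines L).2.2.drop ((L.headD []).getD 2 0)).drop ((L.headD []).getD 0 0))

section pt
variable {α : Type} [Enc α] {R : α → Raw} {t : α → List ℕ} {p l : α → ℕ} {e : α → ℕ × ℕ}
  {V W : α → Tab}

theorem pt_split : PT split := by
  have := pt_ofLines
  unfold split; fun_prop

theorem foldl_min_le (u : List ℕ) (k : ℕ) : u.foldl min k ≤ k := by
  induction u generalizing k with
  | nil => exact le_rfl
  | cons x u ih => exact (ih _).trans (min_le_left _ _)

@[fun_prop] theorem pt_min (ht : PT t) (hp : PT p) : PT (fun a => (t a).foldl min (p a)) :=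
  PT.foldl (f := fun _ t x => min t x) (by fun_prop) ht hp (fun a => 4 * size (p a))
    ((PB.const 4).mul hp.size_le) (fun _ u _ => size_nat_mono (foldl_min_le u _))

@[fun_prop] theorem pt_low (hR : PT R) (ht : PT t) (hl : PT l) :
    PT (fun a => (R a).low (t a) (l a)) := by
  unfold low; fun_prop
@[fun_prop] theorem pt_down (hR : PT R) (ht : PT t) : PT (fun a => (R a).down (t a)) := by
  unfold down; fun_prop

@[fun_prop] theorem pt_desc (hR : PT R) (ht : PT t) : PT (fun a => (R a).desc (t a)) := by
  refine PT.iterate_inv (f := fun a s => down (R a) s) (by fun_prop) (by unfold rounds; fun_prop) ht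
    (fun a s => s.length ≤ size (R a) + size (t a) ∧ ∀ x ∈ s, ∃ i, x ≤ (t a).getD i 0) ?_ ?_
    (fun a => (size (R a) + size (t a)) * (4 * size (t a) + 1) + 1)
    (((hR.size_le.add ht.size_le).mul (((PB.const 4).mul ht.size_le).add (PB.const 1))).add
      (PB.const 1)) ?_
  · intro a
    refine ⟨by have := length_lt_size (t a); omega, fun x hx => ?_⟩
    obtain ⟨i, hi, rfl⟩ := List.getElem_of_mem hx
    exact ⟨i, by simp [List.getD_eq_getElem?_getD, hi]⟩
  · rintro a s ⟨-, hs⟩
    have h2 := length_lt_size (R a).2.1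
    have h4 := size_prod (R a)
    have h5 := size_prod (R a).2
    refine ⟨by simp [down, projs]; omega, fun x hx => ?_⟩
    simp only [down, List.mem_map] at hx
    obtain ⟨p, -, rfl⟩ := hx
    obtain ⟨i, hi⟩ : ∃ i, s.getD p 0 ≤ (t a).getD i 0 := by
      rw [List.getD_eq_getElem?_getD]
      cases h : s[p]? with
      | none => exact ⟨0, Nat.zero_le _⟩
      | some x => exact hs x (List.mem_of_getElem? h)
    refine ⟨i, le_trans ?_ hi⟩
    simp only [Bool.cond_eq_ite]
    split_ifs <;> omega
  · rintro a s ⟨h1, h2⟩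
    refine (size_list_le (B := 4 * size (t a)) fun x hx => ?_).trans
      (Nat.add_le_add_right (Nat.mul_le_mul_right _ h1) 1)
    obtain ⟨i, hi⟩ := h2 x hx
    exact (size_nat_mono hi).trans (Nat.mul_le_mul_left 4 (Net.size_getD _ _))

@[fun_prop] theorem pt_tp (hR : PT R) : PT (fun a => (R a).tp) := by
  unfold tp start; fun_prop
@[fun_prop] theorem pt_T (hR : PT R) (he : PT e) : PT (fun a => (R a).T (e a)) := by
  unfold T; fun_prop
@[fun_prop] theorem pt_evs (hR : PT R) : PT (fun a => (R a).evs) := by
  unfold evs; fun_prop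
@[fun_prop] theorem pt_cost (hR : PT R) (hV : PT V) (hW : PT W) (ht : PT t) (hp : PT p) :
    PT (fun a => (R a).cost (V a) (W a) (t a) (p a)) := by
  unfold cost; fun_prop
@[fun_prop] theorem pt_net (hR : PT R) (hV : PT V) (hW : PT W) :
    PT (fun a => (R a).net (V a) (W a)) := by
  unfold net; fun_prop
@[fun_prop] theorem pt_best (hR : PT R) (hV : PT V) (hW : PT W) :
    PT (fun a => (R a).best (V a) (W a)) := by
  unfold best; fun_prop
@[fun_prop] theorem pt_out (hR : PT R) (hV : PT V) (hW : PT W) :
    PT (fun a => (R a).out (V a) (W a)) := by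
  unfold out; fun_prop

end pt

end Raw

/-- the whole algorithm on bit strings -/
def optAlg (x : List Bool) : List Bool :=
  (Raw.split (parseLines x)).1.out (Raw.split (parseLines x)).2.1 (Raw.split (parseLines x)).2.2

theorem pt_optAlg : PT optAlg := by
  have h : PT fun x => Raw.split (parseLines x) := Raw.pt_split.comp PT.parseLines
  exact Raw.pt_out h.fst h.snd.fst h.snd.snd

end Pool.Agent.P.MP_ef40db_lc
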