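import Pool.Agent.P.MP_ef40db_lc.Link
import Pool.Agent.P.MP_ef40db_lc.OptDefs
import Pool.Agent.P.MP_ef40db_lc.OptRaw
import Pool.Agent.P.MP_ef40db_lc.OptCut
import Pool.Agent.P.MP_ef40db_lc.OptLat

/-! Minimum cost solutions as minimum cuts, and correctness of the algorithm. -/

namespace Pool.Agent.P.MP_ef40db_lc

open Pool.Agent.Lib.Helper47 Finset

theorem tele (F : ℕ → ℕ) (ok : ℕ → Prop) [DecidablePred ok] {j H n : ℕ} (hj : j ≤ H) (hn : H ≤ n)
    (h1 : ∀ i, ok i → i < H) (h2 : ∀ i, j ≤ i → i < H → ok i) :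
    ∑ i ∈ range n, (if ok i then (if j ≤ i then F i else F (i + 1)) else 0) + F H =
      F j + ∑ i ∈ range n, if ok i then F (i + 1) else 0 := by
  have e : ∀ G : ℕ → ℕ, ∑ i ∈ range n, (if ok i then (if j ≤ i then G i else F (i + 1)) else 0) =
      ∑ i ∈ range n, (if ok i ∧ i < j then F (i + 1) else 0) + ∑ i ∈ Ico j H, G i := fun G => by
    have : Ico j H = range n ∩ Ico j H := by
      ext i; simp only [mem_inter, mem_range, mem_Ico]; omega
    rw [this, ← sum_ite_mem, ← sum_add_distrib]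
    refine sum_congr rfl fun i _ => ?_
    have := h1 i
    have := h2 i
    simp only [mem_Ico]
    split_ifs <;> first | omega | tauto | skip
    all_goals simp_all
  have e' : ∑ i ∈ Ico j H, F i + F H = F j + ∑ i ∈ Ico j H, F (i + 1) := by
    clear hn h1 h2 e
    induction H, hj using Nat.le_induction with
    | base => simp
    | succ H hj ih => rw [sum_Ico_succ_top hj, sum_Ico_succ_top hj]; omega
  have := e fun i => F (i + 1)
  simp only [ite_self] at this
  rw [e, this]
  omega

theorem foldl_min_le_iff (u : List ℕ) (i : ℕ) : ∀ k, u.foldl min k ≤ i ↔ k ≤ i ∨ ∃ x ∈ u, x ≤ i := by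
  induction u with
  | nil => simp
  | cons x u ih => intro k; simp [ih, or_assoc]

theorem sum_filter_map {α : Type} (l : List α) (P : α → Bool) (F : α → ℕ) :
    ((l.filter P).map F).sum = (l.map fun a => if P a = true then F a else 0).sum := by
  induction l with
  | nil => rfl
  | cons a l ih => cases h : P a <;> simp [h, ih]

theorem getD_map' {α β : Type} (l : List α) (f : α → β) (d : β) {a : ℕ} (h : a < l.length) :
    (l.map f).getD a d = f l[a] := by
  simp [List.getD_eq_getElem?_getD, h]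

namespace Inst

variable (I : Inst)

/-- the greatest threshold vector of a solution below a given vector -/
noncomputable def desc (t : Fin I.n₂ → ℕ) : Fin I.n₂ → ℕ := I.down^[I.raw.rounds.length] t

/-- the greatest threshold vector of a solution -/
noncomputable def tp : Fin I.n₂ → ℕ := I.desc fun _ => I.n₁

/-- the greatest threshold vector of a solution with value at most `i` at `p` -/
noncomputable def T (p : Fin I.n₂) (i : ℕ) : Fin I.n₂ → ℕ :=
  I.desc fun p' => if p' = p then i else I.n₁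

/-- the events: the threshold of `p` is at most `i` -/
def Ev (p : Fin I.n₂) (i : ℕ) : Prop := i < I.tp p ∧ I.Check (I.T p i)

open Classical in
/-- the list of the events -/
noncomputable def evs : List (Fin I.n₂ × ℕ) :=
  ((List.finRange I.n₂).flatMap fun p => (List.range I.n₁).map fun i => (p, i)).filter
    fun e => decide (I.Ev e.1 e.2)

variable {I} {z : Fin I.n₂ → ℕ} {p : Fin I.n₂} {i : ℕ}

theorem tp_le (p : Fin I.n₂) : I.tp p ≤ I.n₁ := iter_le _ _ p

theorem tp_spec (hz : I.Z z) : I.Z I.tp ∧ ∀ p, z p ≤ I.tp p :=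
  ⟨z_iter hz hz.1 (fun _ => le_rfl) I.raw_rounds, le_iter hz hz.1 (fun _ => le_rfl) _⟩

theorem T_le (p : Fin I.n₂) (i : ℕ) : I.T p i p ≤ i := (iter_le _ _ p).trans (by simp)

theorem T_spec (hz : I.Z z) (h : z p ≤ i) (hi : i ≤ I.n₁) :
    I.Z (I.T p i) ∧ ∀ p', z p' ≤ I.T p i p' := by
  have h1 : ∀ p', z p' ≤ if p' = p then i else I.n₁ := fun p' => by
    split_ifs with e
    · exact e ▸ h
    · exact hz.1 p'
  have h2 : ∀ p', (if p' = p then i else I.n₁) ≤ I.n₁ := fun p' => by split_ifs <;> omega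
  exact ⟨z_iter hz h1 h2 I.raw_rounds, le_iter hz h1 h2 _⟩

theorem Ev.toZ (h : I.Ev p i) : I.Z (I.T p i) :=
  ⟨fun p' => (iter_le _ _ p').trans (by have := tp_le p; have := h.1; split_ifs <;> omega), h.2⟩

theorem T_proj (hz : I.Z z) (p : Fin I.n₂) :
    I.onProj (I.asg (I.T p (z p))) p = I.onProj (I.asg z) p :=
  let ⟨h1, h2⟩ := T_spec hz (le_refl (z p)) (hz.1 p)
  h1.proj_eq hz (le_antisymm (T_le _ _) (h2 p))

theorem evs_ev {e : Fin I.n₂ × ℕ} (h : e ∈ I.evs) : I.Ev e.1 e.2 := by
  simpa using (List.mem_filter.1 h).2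

open Classical in
theorem sum_evs (Φ : Fin I.n₂ × ℕ → ℕ) (F : ℕ → ℕ)
    (h : ∀ a (ha : a < I.evs.length), F a = Φ I.evs[a]) : ∑ a ∈ range I.evs.length, F a =
      ∑ p, ∑ i ∈ range I.n₁, if I.Ev p i then Φ (p, i) else 0 := by
  rw [sum_range, Fintype.sum_congr _ _ fun a : Fin I.evs.length => h a a.2,
    Fin.sum_univ_fun_getElem, evs, sum_filter_map, List.map_flatMap, List.flatMap_def,
    List.sum_flatten, List.map_map, Fin.sum_univ_def]
  congr 2
  funext p
  simp only [Function.comp_def, List.map_map, decide_eq_true_eq, Net.sum_range_map]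

/-- a minimum cut gives a solution of minimum cost -/
theorem opt (g : Fin I.n₂ → Finset (Fin I.n₁) → ℕ) (N : Net) (hl : N.1.length = I.evs.length)
    (hu : ∀ a (h : a < I.evs.length), N.u a =
      g I.evs[a].1 (I.onProj (I.asg (I.T I.evs[a].1 (I.evs[a].2 + 1))) I.evs[a].1))
    (hv : ∀ a (h : a < I.evs.length), N.v a =
      g I.evs[a].1 (I.onProj (I.asg (I.T I.evs[a].1 I.evs[a].2)) I.evs[a].1))
    (hE : ∀ a b (h : a < I.evs.length) (h' : b < I.evs.length),
      N.E a b = true ↔ I.T I.evs[a].1 I.evs[a].2 I.evs[b].1 ≤ I.evs[b].2)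
    {y : Fin I.n₂ → ℕ} (hy : I.Z y) (hy' : ∀ p i, y p ≤ i ↔ I.tp p ≤ i ∨
      ∃ a ∈ N.sol, ∃ h : a < I.evs.length, I.T I.evs[a].1 I.evs[a].2 p ≤ i) (hz : I.Z z) :
    ∑ p, g p (I.onProj (I.asg y) p) ≤ ∑ p, g p (I.onProj (I.asg z) p) := by
  classical
  have ev : ∀ a (h : a < I.evs.length), I.Ev I.evs[a].1 I.evs[a].2 :=
    fun a h => evs_ev (List.getElem_mem h)
  have key : ∀ (x : Fin I.n₂ → ℕ) (Q : ℕ → Prop), I.Z x →
      (∀ a (h : a < I.evs.length), Q a ↔ x I.evs[a].1 ≤ I.evs[a].2) →
      ∑ a ∈ range I.evs.length, (if Q a then N.v a else N.u a) +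
        ∑ p, g p (I.onProj (I.asg I.tp) p) =
      ∑ p, g p (I.onProj (I.asg x) p) + ∑ a ∈ range I.evs.length, N.u a := by
    intro x Q hx hQ
    obtain ⟨t1, t2⟩ := tp_spec hx
    rw [sum_evs (fun e => if x e.1 ≤ e.2 then g e.1 (I.onProj (I.asg (I.T e.1 e.2)) e.1)
        else g e.1 (I.onProj (I.asg (I.T e.1 (e.2 + 1))) e.1)) _
        (fun a h => by rw [hu a h, hv a h]; exact if_congr (hQ a h) rfl rfl),
      sum_evs (fun e => g e.1 (I.onProj (I.asg (I.T e.1 (e.2 + 1))) e.1)) _ hu,
      ← sum_add_distrib, ← sum_add_distrib]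
    refine sum_congr rfl fun p _ => ?_
    rw [← T_proj hx p, ← T_proj t1 p]
    exact tele (fun i => g p (I.onProj (I.asg (I.T p i)) p)) (I.Ev p) (t2 p) (tp_le p)
      (fun i h => h.1) fun i h h' => ⟨h', (T_spec hx h (h'.le.trans (tp_le p))).1.2⟩
  have k1 := key y (N.Gam fun a => a ∈ N.sol) hy fun b hb => by
    rw [hy', Net.Gam, hl, or_iff_right (not_le.2 (ev b hb).1)]
    exact ⟨fun ⟨a, h1, h2, h3⟩ => ⟨a, h2, h1, (hE a b h1 hb).1 h3⟩,
      fun ⟨a, h2, h1, h3⟩ => ⟨a, h1, h2, (hE a b h1 hb).2 h3⟩⟩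
  obtain ⟨Q, hQ⟩ : ∃ Q : ℕ → Prop, ∀ a (h : a < I.evs.length),
      Q a ↔ z I.evs[a].1 ≤ I.evs[a].2 :=
    ⟨fun a => ∃ h : a < I.evs.length, z I.evs[a].1 ≤ I.evs[a].2,
      fun a h => ⟨fun h => h.2, fun h' => ⟨h, h'⟩⟩⟩
  have k2 := key z Q hz hQ
  have k3 := N.sol_spec Q
  rw [Net.cut, Net.cut, hl, ← sum_add_distrib, ← sum_add_distrib] at k3
  have k4 := (sum_le_sum (f := fun a => if N.Gam (fun a => a ∈ N.sol) a then N.v a else N.u a)
    fun a ha => ?_).trans (k3.trans (sum_le_sum (g := fun a =>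
      if Q a then N.v a else N.u a) fun a ha => ?_))
  · omega
  · have ha := mem_range.1 ha
    split_ifs with h1 h2 h2
    · omega
    · omega
    · exact absurd ⟨a, hl ▸ ha, h2, (hE a a ha ha).2 (T_le _ _)⟩ h1
    · omega
  · have ha := mem_range.1 ha
    split_ifs with h1 h2 h2
    · omega
    · omega
    · obtain ⟨b, hb, h3, h4⟩ := h2
      rw [hl] at hb
      exact absurd ((hQ a ha).2 (((T_spec hz ((hQ b hb).1 h3)
        ((ev b hb).1.le.trans (tp_le _))).2 _).trans ((hE b a hb ha).1 h4))) h1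
    · omega

variable (I) (t : Fin I.n₂ → ℕ)

theorem raw_low (l : Fin I.n₃) : I.raw.low (List.ofFn t) l = true ↔ I.Low t l := by
  simp only [Raw.low, Low, cp, cl, raw_projs, raw_lecs, List.all_map, List.any_map,
    Bool.and_eq_true, List.all_eq_true, List.any_eq_true, List.mem_finRange, true_and,
    forall_const, Function.comp, raw_lec, raw_c, raw_d, raw_q, getD_ofFn, raw_onProj_length,
    raw_onLec_length, Bool.or_eq_true, beq_iff_eq, Nat.ble_eq, Nat.blt_eq, Fin.val_inj]

theorem raw_down : I.raw.down (List.ofFn t) = List.ofFn (I.down t) := by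
  rw [Raw.down, raw_projs, List.map_map, List.ofFn_eq_map (f := I.down t)]
  congr 1
  funext p
  have h1 : ((List.finRange I.n₂).map Fin.val).any (fun p' => I.raw.ovr (List.ofFn t) p') = true
      ↔ ∃ p', I.Over t p' := by
    simp [-List.map_coe_finRange_eq_range, raw_ovr]
  classical
  simp only [Function.comp, raw_lec, getD_ofFn, down, Bool.cond_eq_ite]
  refine if_congr h1 (if_congr (raw_ovr I t p) rfl rfl) (if_congr ?_ rfl rfl)
  simp only [Bool.and_eq_true, raw_low, List.all_map, List.all_eq_true, List.mem_finRange,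
    forall_const, Function.comp, raw_lec, getD_ofFn, Bool.or_eq_true, bne_iff_ne, ne_eq,
    Fin.val_inj, Nat.ble_eq, imp_iff_not_or]

theorem raw_desc : I.raw.desc (List.ofFn t) = List.ofFn (I.desc t) := by
  rw [Raw.desc, desc]
  induction I.raw.rounds.length with
  | zero => rfl
  | succ k ih => rw [Function.iterate_succ_apply', Function.iterate_succ_apply', ih, raw_down]

theorem raw_tp : I.raw.tp = List.ofFn I.tp := by
  rw [tp, ← raw_desc, Raw.tp]
  simp [Raw.start, Raw.projs, raw]

theorem raw_T (p : Fin I.n₂) (i : ℕ) : I.raw.T (p, i) = List.ofFn (I.T p i) := by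
  rw [T, ← raw_desc, Raw.T, raw_projs, List.map_map, List.ofFn_eq_map]
  congr 2
  funext p'
  simp [raw_len, Fin.val_inj]

theorem raw_evs : I.raw.evs = I.evs.map fun e => (e.1.val, e.2) := by
  have : (I.raw.projs.flatMap fun p => I.raw.studs.map fun i => (p, i)) =
      ((List.finRange I.n₂).flatMap fun p => (List.range I.n₁).map fun i => (p, i)).map
        fun e => (e.1.val, e.2) := by
    rw [raw_projs, List.flatMap_map, List.map_flatMap, Raw.studs, raw_len]
    simp [Function.comp_def]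
  rw [Raw.evs, this, List.filter_map, evs]
  congr 2
  funext e
  classical
  rw [Bool.eq_iff_iff, decide_eq_true_iff]
  simp only [Function.comp, raw_tp, raw_T, getD_ofFn, Bool.and_eq_true, Nat.blt_eq, raw_check, Ev]

variable (v : Fin I.n₁ → Fin I.n₂ → ℕ) (w : Fin I.n₂ → ℕ → ℕ)

theorem raw_cost (p : Fin I.n₂) : I.raw.cost (List.ofFn fun s => List.ofFn (v s))
    (List.ofFn fun p => (List.range (I.n₁ + 1)).map (w p)) (List.ofFn t) p =
      ∑ s ∈ I.onProj (I.asg t) p, v s p + w p (I.onProj (I.asg t) p).card := by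
  have h : (I.onProj (I.asg t) p).card < I.n₁ + 1 :=
    Nat.lt_succ_of_le ((card_le_univ _).trans (by simp))
  rw [Raw.cost, raw_onProj_length, raw_onProj, List.map_map, sum_filter_map]
  congr 1
  · rw [onProj, sum_filter, Fin.sum_univ_def]
    simp only [Function.comp, Net.ent, getD_ofFn, decide_eq_true_eq]
  · rw [Net.ent, getD_ofFn, getD_map' _ _ _ (by simpa using h), List.getElem_range]

theorem cost_eq (M : Finset (Fin I.n₁ × Fin I.n₂)) : I.cost v w M =
    ∑ p, (∑ s ∈ I.onProj M p, v s p + w p (I.onProj M p).card) := by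
  rw [cost, sum_add_distrib]
  congr 1
  simp only [onProj, sum_filter]
  rw [sum_comm, ← Fintype.sum_prod_type' fun s p => if (s, p) ∈ M then v s p else 0, ← sum_filter]
  congr 1
  ext x
  simp

theorem split_lines : Raw.split (I.costLines v w) = (I.raw, List.ofFn fun s => List.ofFn (v s),
    List.ofFn fun p => (List.range (I.n₁ + 1)).map (w p)) := by
  simp only [Raw.split, Raw.ofLines, costLines, lines, raw, List.cons_append, List.tail_cons,
    List.headD_cons, List.getD_cons_zero, List.getD_cons_succ, List.append_assoc]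
  rw [List.take_left' (by simp), List.drop_left' (by simp), List.take_left' (by simp),
    List.drop_left' (by simp), List.take_left' (by simp), List.drop_left' (by simp),
    List.take_left' (by simp), List.drop_left' (by simp)]

theorem optAlg_correct :
    (∃ M, I.IsSolution M ∧ (∀ M', I.IsSolution M' → I.cost v w M ≤ I.cost v w M') ∧
      optAlg (I.costEncode v w) = true :: I.table M) ∨
      (optAlg (I.costEncode v w) = [false] ∧ ¬ ∃ M, I.IsSolution M) := by
  have e : parseLines (I.costEncode v w) = I.costLines v w := parseLines_encLines _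
  rw [optAlg, e, split_lines, Raw.out, raw_tp]
  cases h : I.raw.check (List.ofFn I.tp)
  · refine Or.inr ⟨rfl, ?_⟩
    rintro ⟨N, hN⟩
    obtain ⟨z, hz, -⟩ := exists_z hN
    rw [(raw_check I _).2 (tp_spec hz).1.2] at h
    cases h
  set N := I.raw.net (List.ofFn fun s => List.ofFn (v s))
    (List.ofFn fun p => (List.range (I.n₁ + 1)).map (w p)) with hN
  have hl : N.1.length = I.evs.length := by simp [hN, Raw.net, raw_evs]
  let L : List (Fin I.n₂ → ℕ) :=
    N.sol.map fun a p => (I.raw.T (I.raw.evs.getD a (0, 0))).getD p 0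
  have hL : ∀ a (h : a < I.evs.length), (fun p : Fin I.n₂ =>
      (I.raw.T (I.raw.evs.getD a (0, 0))).getD p 0) = I.T I.evs[a].1 I.evs[a].2 := fun a h => by
    funext p
    rw [raw_evs, getD_map' _ _ _ h, raw_T, getD_ofFn]
  have hy : I.Z fun p => (L.map fun x => x p).foldl min (I.tp p) :=
    Z.fold L (fun x hx => by
      obtain ⟨a, ha, rfl⟩ := List.mem_map.1 hx
      rw [hL a (hl ▸ Net.sol_lt ha)]
      exact (evs_ev (List.getElem_mem _)).toZ) ⟨tp_le, (raw_check I _).1 h⟩
  refine Or.inl ⟨_, hy.2.sound, fun M' hM => ?_, ?_⟩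
  · obtain ⟨z, hz, rfl⟩ := exists_z hM
    rw [cost_eq, cost_eq]
    refine opt (fun p X => ∑ s ∈ X, v s p + w p X.card) N hl (fun a ha => ?_) (fun a ha => ?_)
      (fun a b ha hb => ?_) hy (fun p i => ?_) hz
    · simp only [hN, Net.u, Raw.net, raw_evs, List.map_map]
      rw [getD_map' _ _ _ ha]
      simp only [Function.comp, raw_T, raw_cost]
    · simp only [hN, Net.v, Raw.net, raw_evs, List.map_map]
      rw [getD_map' _ _ _ ha]
      simp only [Function.comp, raw_T, raw_cost]
    · simp only [hN, Net.E, Raw.net, raw_evs, List.map_map]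
      rw [getD_map' _ _ _ ha, Function.comp, getD_map' _ _ _ hb]
      simp only [Function.comp, raw_T, getD_ofFn, Nat.ble_eq]
    · rw [foldl_min_le_iff]
      refine or_congr_right ⟨?_, ?_⟩
      · rintro ⟨_, hx, h'⟩
        obtain ⟨_, hx', rfl⟩ := List.mem_map.1 hx
        obtain ⟨a, ha, rfl⟩ := List.mem_map.1 hx'
        exact ⟨a, ha, hl ▸ Net.sol_lt ha, by rw [← hL a]; exact h'⟩
      · rintro ⟨a, ha, h', h''⟩
        exact ⟨_, List.mem_map_of_mem (List.mem_map_of_mem ha), (congrFun (hL a h') p).trans_le h''⟩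
  · rw [← raw_table, cond_true, Raw.best, ← hN, raw_projs, List.map_map, List.ofFn_eq_map, raw_tp]
    simp only [Function.comp_def, getD_ofFn, L, List.map_map]
    rw [List.ofFn_eq_map]

end Inst

end Pool.Agent.P.MP_ef40db_lc
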