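import Pool.Agent.Lib.Helper47.Parse

/-! The threshold algorithm on raw data, and its polynomial running time. -/

namespace Pool.Agent.P.MP_ef40db_lc

open Pool.Agent.Lib.Helper47

/-- student lines, project lines, lecturer lines -/
abbrev Raw : Type := List (List ℕ) × List (List ℕ) × List (List ℕ)

namespace Raw

/-- split the lines of the input -/
def ofLines (L : List (List ℕ)) : Raw :=
  (L.tail.take ((L.headD []).getD 0 0),
   (L.tail.drop ((L.headD []).getD 0 0)).take ((L.headD []).getD 1 0),
   (L.tail.drop ((L.headD []).getD 0 0)).drop ((L.headD []).getD 1 0))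

def studs (R : Raw) : List ℕ := List.range R.1.length
def projs (R : Raw) : List ℕ := List.range R.2.1.length
def lecs (R : Raw) : List ℕ := List.range R.2.2.length
def lec (R : Raw) (p : ℕ) : ℕ := (R.2.1.getD p []).getD 0 0
def c (R : Raw) (p : ℕ) : ℕ := (R.2.1.getD p []).getD 1 0
def q (R : Raw) (p : ℕ) : ℕ := (R.2.1.getD p []).getD 2 0
def d (R : Raw) (l : ℕ) : ℕ := (R.2.2.getD l []).headD 0
def rk (R : Raw) (l s : ℕ) : ℕ := (R.2.2.getD l []).tail.idxOf s
def top (R : Raw) (t : List ℕ) (s : ℕ) : Option ℕ :=
  (R.1.getD s []).find? (fun p => Nat.blt (R.rk (R.lec p) s) (t.getD p 0))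
def onProj (R : Raw) (t : List ℕ) (p : ℕ) : List ℕ :=
  R.studs.filter (fun s => R.top t s == some p)
def onLec (R : Raw) (t : List ℕ) (l : ℕ) : List ℕ :=
  R.studs.filter (fun s => (R.top t s).map R.lec == some l)
def ovr (R : Raw) (t : List ℕ) (p : ℕ) : Bool := Nat.blt (R.c p) (R.onProj t p).length
def bad (R : Raw) (t : List ℕ) (l : ℕ) : Bool :=
  Nat.blt (R.d l) (R.onLec t l).length ||
    (R.lecs.all (fun l' => Nat.ble (R.onLec t l').length (R.d l')) &&
      R.projs.any (fun p => R.lec p == l && Nat.blt (R.onProj t p).length (R.q p)))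
def mx (l : List ℕ) : ℕ := l.foldl max 0
def step (R : Raw) (t : List ℕ) : List ℕ :=
  R.projs.map (fun p =>
    bif R.projs.any (fun p' => R.ovr t p') then
      (bif R.ovr t p then mx ((R.onProj t p).map (fun s => R.rk (R.lec p) s)) else t.getD p 0)
    else bif R.bad t (R.lec p) then
      min (t.getD p 0) (mx ((R.onLec t (R.lec p)).map (fun s => R.rk (R.lec p) s)))
    else t.getD p 0)
def check (R : Raw) (t : List ℕ) : Bool :=
  R.projs.all (fun p => !R.ovr t p) && (R.lecs.all (fun l => !R.bad t l) &&
    R.projs.all (fun p => t.getD p 0 == R.1.length || (Nat.ble (R.c p) (R.onProj t p).length ||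
      (Nat.ble (R.d (R.lec p)) (R.onLec t (R.lec p)).length &&
        R.projs.all (fun p' => R.lec p' != R.lec p || Nat.ble (t.getD p' 0) (t.getD p 0))))))
def start (R : Raw) : List ℕ := R.projs.map (fun _ => R.1.length)
def rounds (R : Raw) : List ℕ := 0 :: R.studs.flatMap (fun _ => R.projs)
def final (R : Raw) : List ℕ := R.step^[R.rounds.length] R.start
def table (R : Raw) (t : List ℕ) : List Bool :=
  R.studs.flatMap (fun s => R.projs.map (fun p => R.top t s == some p))
def answer (R : Raw) : List Bool :=
  bif R.check R.final then true :: R.table R.final else [false]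

section pt
variable {α : Type} [Enc α] {R : α → Raw} {t : α → List ℕ} {p l s : α → ℕ}

theorem pt_ofLines : PT ofLines := by unfold ofLines; fun_prop

@[fun_prop] theorem pt_studs (hR : PT R) : PT (fun a => (R a).studs) :=
  PT.rangeLength (by fun_prop)
@[fun_prop] theorem pt_projs (hR : PT R) : PT (fun a => (R a).projs) :=
  PT.rangeLength (by fun_prop)
@[fun_prop] theorem pt_lecs (hR : PT R) : PT (fun a => (R a).lecs) :=
  PT.rangeLength (by fun_prop)
@[fun_prop] theorem pt_lec (hR : PT R) (hp : PT p) : PT (fun a => (R a).lec (p a)) := by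
  unfold lec; fun_prop
@[fun_prop] theorem pt_c (hR : PT R) (hp : PT p) : PT (fun a => (R a).c (p a)) := by
  unfold c; fun_prop
@[fun_prop] theorem pt_q (hR : PT R) (hp : PT p) : PT (fun a => (R a).q (p a)) := by
  unfold q; fun_prop
@[fun_prop] theorem pt_d (hR : PT R) (hl : PT l) : PT (fun a => (R a).d (l a)) := by
  unfold d; fun_prop
@[fun_prop] theorem pt_rk (hR : PT R) (hl : PT l) (hs : PT s) :
    PT (fun a => (R a).rk (l a) (s a)) := by
  unfold rk; fun_prop
@[fun_prop] theorem pt_top (hR : PT R) (ht : PT t) (hs : PT s) :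
    PT (fun a => (R a).top (t a) (s a)) := by
  unfold top; fun_prop
@[fun_prop] theorem pt_onProj (hR : PT R) (ht : PT t) (hp : PT p) :
    PT (fun a => (R a).onProj (t a) (p a)) := by
  unfold onProj; fun_prop
@[fun_prop] theorem pt_onLec (hR : PT R) (ht : PT t) (hl : PT l) :
    PT (fun a => (R a).onLec (t a) (l a)) := by
  unfold onLec; fun_prop
@[fun_prop] theorem pt_ovr (hR : PT R) (ht : PT t) (hp : PT p) :
    PT (fun a => (R a).ovr (t a) (p a)) := by
  unfold ovr; fun_prop
@[fun_prop] theorem pt_bad (hR : PT R) (ht : PT t) (hl : PT l) :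
    PT (fun a => (R a).bad (t a) (l a)) := by
  unfold bad; fun_prop
@[fun_prop] theorem pt_mx (ht : PT t) : PT (fun a => mx (t a)) := PT.foldl_max ht (PT.const 0)
@[fun_prop] theorem pt_step (hR : PT R) (ht : PT t) : PT (fun a => (R a).step (t a)) := by
  unfold step; fun_prop
@[fun_prop] theorem pt_check (hR : PT R) (ht : PT t) : PT (fun a => (R a).check (t a)) := by
  unfold check; fun_prop
@[fun_prop] theorem pt_table (hR : PT R) (ht : PT t) : PT (fun a => (R a).table (t a)) := by
  unfold table; fun_prop

theorem mx_le_iff (l : List ℕ) (b : ℕ) : mx l ≤ b ↔ ∀ x ∈ l, x ≤ b := by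
  have : ∀ k, l.foldl max k ≤ b ↔ k ≤ b ∧ ∀ x ∈ l, x ≤ b := by
    induction l with
    | nil => simp
    | cons y l ih => intro k; simp [ih, and_assoc]
  simp [mx, this]

theorem rk_le (R : Raw) (l s : ℕ) : R.rk l s ≤ size R := by
  have h1 : R.rk l s ≤ (R.2.2.getD l []).tail.length := List.idxOf_le_length
  have h2 := length_lt_size (R.2.2.getD l [])
  have h3 : size (R.2.2.getD l []) ≤ size R.2.2 := by
    rw [List.getD_eq_getElem?_getD]
    cases h : R.2.2[l]? with
    | none => exact size_pos R.2.2
    | some x => exact (size_lt_of_mem (List.mem_of_getElem? h)).le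
  have h4 := size_prod R
  have h5 := size_prod R.2
  rw [List.length_tail] at h1
  omega

theorem pt_final : PT final := by
  refine PT.iterate_inv (f := fun R t => step R t) (by fun_prop) (by unfold rounds; fun_prop)
    (by unfold start; fun_prop)
    (fun R t => t.length ≤ size R ∧ ∀ x ∈ t, x ≤ size R) ?_ ?_
    (fun R => size R * (4 * size R + 1 + 1) + 1)
    ((PB.self.mul ((((PB.const 4).mul PB.self).add (PB.const 1)).add (PB.const 1))).add
      (PB.const 1)) ?_
  · intro R
    have h1 := length_lt_size R.1
    have h2 := length_lt_size R.2.1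
    have h4 := size_prod R
    have h5 := size_prod R.2
    constructor
    · simp [start, projs]; omega
    · intro x hx
      simp only [start, List.mem_map] at hx
      obtain ⟨-, -, rfl⟩ := hx
      omega
  · rintro R t ⟨-, ht⟩
    have h2 := length_lt_size R.2.1
    have h4 := size_prod R
    have h5 := size_prod R.2
    constructor
    · simp [step, projs]; omega
    · intro x hx
      simp only [step, List.mem_map] at hx
      obtain ⟨p, -, rfl⟩ := hx
      have h6 : t.getD p 0 ≤ size R := by
        rw [List.getD_eq_getElem?_getD]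
        cases h : t[p]? with
        | none => exact Nat.zero_le _
        | some x => exact ht x (List.mem_of_getElem? h)
      have h7 : mx ((R.onProj t p).map (fun s => R.rk (R.lec p) s)) ≤ size R := by
        rw [mx_le_iff]
        intro x hx
        obtain ⟨s, -, rfl⟩ := List.mem_map.1 hx
        exact rk_le _ _ _
      cases R.projs.any (fun p' => R.ovr t p') <;> cases R.ovr t p <;>
        cases R.bad t (R.lec p) <;> simp only [cond_true, cond_false] <;> omega
  · rintro R t ⟨h1, h2⟩
    refine (size_list_le (B := 4 * size R + 1) (fun x hx => ?_)).trans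
      (Nat.add_le_add_right (Nat.mul_le_mul_right _ h1) 1)
    have := size_nat_le x
    have := h2 x hx
    omega

theorem pt_answer : PT answer := by
  have := pt_final
  unfold answer
  fun_prop

end pt

end Raw

/-- the whole algorithm on bit strings -/
def alg (x : List Bool) : List Bool := (Raw.ofLines (parseLines x)).answer

theorem pt_alg : PT alg := Raw.pt_answer.comp (Raw.pt_ofLines.comp PT.parseLines)

end Pool.Agent.P.MP_ef40db_lc
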